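import Pool.Agent.W221.ExcLow4

set_option autoImplicit false
set_option linter.unusedSectionVars false

/-!
The lower bound for the number of points with few reductions: counting.
-/

namespace Pool.Agent.W221.Exc

open NumberField IsDedekindDomain Finset Height
open Pool.Agent.H691R3

/-- a power in a given window -/
lemma exists_pow_window {p : ℕ} (hp : 2 ≤ p) {U : ℝ} (hU : 1 ≤ U) :
    ∃ m : ℕ, U ≤ (p : ℝ) ^ m ∧ (p : ℝ) ^ m ≤ p * U := by
  obtain ⟨m, hm1, hm2⟩ := exists_nat_pow_near hU (show (1 : ℝ) < p by exact_mod_cast hp)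
  refine ⟨m + 1, hm2.le, ?_⟩
  rw [pow_succ, mul_comm]
  exact mul_le_mul_of_nonneg_left hm1 (Nat.cast_nonneg _)

lemma final_ineq {q κ X C3 c0 d L Mp Nl : ℝ} (hd : 1 ≤ d) (hκ : 0 ≤ κ) (hX : X ≤ d * L)
    (h2 : |C3 - c0| + 1 + κ / 2 * L ≤ Mp) (h3 : |C3 - c0| + 1 + κ / 2 * L ≤ Nl) :
    q * X + C3 - d * (Mp + Nl) < (q - κ) * X + c0 := by
  have h5 : κ * X ≤ κ * (d * L) := mul_le_mul_of_nonneg_left hX hκ
  have h6 : d * (2 * (|C3 - c0| + 1) + κ * L) ≤ d * (Mp + Nl) :=
    mul_le_mul_of_nonneg_left (by linarith) (by linarith)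
  have h7 : C3 - c0 < d * (2 * (|C3 - c0| + 1)) := by
    have h9 := le_abs_self (C3 - c0)
    have h10 : 0 ≤ |C3 - c0| := abs_nonneg _
    nlinarith
  linarith

variable {K : Type*} [Field K] [NumberField K]

set_option maxHeartbeats 1000000 in
theorem low {q : ℕ} (T : Set (HeightOneSpectrum (𝓞 K))) (α : Fin q → K × K)
    (hα0 : ∀ l, α l ≠ 0) (hα : ∀ i j, i ≠ j → wg (α i) (α j) ≠ 0) (hq : 2 ≤ q)
    (κ c0 : ℝ) (hκ0 : 0 ≤ κ) (hκ2 : κ < 2) :
    ∃ C B0 : ℝ, 0 < C ∧ 1 ≤ B0 ∧ ∀ B : ℝ, B0 ≤ B → ∃ E : Finset K,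
      (∀ x ∈ E, Off α x ∧ NTc T α x < (q - κ) * hr (aff x) + c0 ∧
        hr (aff x) ≤ Module.finrank ℚ K * Real.log B) ∧
      C * B ^ ((Module.finrank ℚ K : ℝ) * (2 - κ)) ≤ E.card := by
  classical
  set d := Module.finrank ℚ K with hd
  have hd0 : 0 < d := Module.finrank_pos
  have hdR : (0 : ℝ) < d := by exact_mod_cast hd0
  set l1 : Fin q := ⟨0, by omega⟩ with hl1
  set l2 : Fin q := ⟨1, by omega⟩ with hl2
  have hl12 : l1 ≠ l2 := by simp [hl1, hl2, Fin.ext_iff]
  set r1 := α l1 with hr1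
  set r2 := α l2 with hr2
  have h12 : wg r1 r2 ≠ 0 := hα l1 l2 hl12
  obtain ⟨p, hpge, hp⟩ := Nat.exists_infinite_primes (2 * d + 2)
  obtain ⟨l, hlge, hl⟩ := Nat.exists_infinite_primes (p + 1)
  have hpl : p ≠ l := by omega
  obtain ⟨C3, hC3⟩ := NTc_xx (K := K) T α hα0 hα l1 l2 hl12 hp hl hpl
  -- heights
  obtain ⟨C2, hC2, hH2⟩ := mob_height r2.1 r1.1 r2.2 r1.2
  have hmob : ∀ st : ℕ × ℕ, ∃ C : ℝ, 0 < C ∧ ∀ y : K,
      mulHeight₁ ((y - (st.1 : K)) / (y - (st.2 : K))) ≤ C * mulHeight₁ y := by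
    intro st
    obtain ⟨C, hC, h⟩ := mob_height (K := K) 1 (-(st.1 : K)) 1 (-(st.2 : K))
    refine ⟨C, hC, fun y => ?_⟩
    have := h y
    simpa only [mul_one, ← sub_eq_add_neg] using this
  choose Cst hCst hHst using hmob
  set ST : Finset (ℕ × ℕ) := Finset.range (2 * d + 2) ×ˢ Finset.range (2 * d + 2) with hST
  set C1 : ℝ := ∑ st ∈ ST, Cst st with hC1
  have hC1le : ∀ st ∈ ST, Cst st ≤ C1 := fun st hst =>
    Finset.single_le_sum (f := Cst) (fun i _ => (hCst i).le) hst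
  have hSTne : ((0 : ℕ), (0 : ℕ)) ∈ ST := by
    rw [hST, Finset.mem_product]; simp
  have hC1pos : 0 < C1 := (hCst _).trans_le (hC1le _ hSTne)
  -- constants
  set A : ℝ := Real.exp (|C3 - c0| + 1) with hA
  have hA1 : 1 ≤ A := by
    rw [hA]; exact Real.one_le_exp (by positivity)
  have hlogA : Real.log A = |C3 - c0| + 1 := by rw [hA, Real.log_exp]
  set W : ℝ := p * l * A with hW
  have hp2 : 2 ≤ p := hp.two_le
  have hl2' : 2 ≤ l := hl.two_le
  have hpR : (1 : ℝ) ≤ p := by exact_mod_cast hp.one_lt.le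
  have hlR : (1 : ℝ) ≤ l := by exact_mod_cast hl.one_lt.le
  have hWpos : 0 < W := by rw [hW]; positivity
  set C5 : ℝ := C2 * C1 * W ^ d with hC5
  have hC5pos : 0 < C5 := by rw [hC5]; positivity
  obtain ⟨c, R0, hc, hR0, hlow⟩ := Pool.Agent.H437R2.Man.Low.count_lower K
  set S : ℝ := (ST.card : ℝ) with hS
  have hSpos : 0 < S := by
    rw [hS]; exact_mod_cast Finset.card_pos.mpr ⟨_, hSTne⟩
  -- the threshold
  have hexp : 0 < (d : ℝ) * (1 - κ / 2) := mul_pos hdR (by linarith)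
  have hexp2 : 0 < (d : ℝ) * (2 - κ) := mul_pos hdR (by linarith)
  set Cf : ℝ := c / (S * C5 ^ 2) with hCf
  have hCfpos : 0 < Cf := by rw [hCf]; positivity
  have hev1 : ∀ᶠ B : ℝ in Filter.atTop, R0 * C5 ≤ B ^ ((d : ℝ) * (1 - κ / 2)) :=
    (tendsto_rpow_atTop hexp).eventually_ge_atTop _
  have hev2 : ∀ᶠ B : ℝ in Filter.atTop, 2 * (q + 3) / Cf ≤ B ^ ((d : ℝ) * (2 - κ)) :=
    (tendsto_rpow_atTop hexp2).eventually_ge_atTop _
  obtain ⟨B0, hB0⟩ := Filter.eventually_atTop.mp (hev1.and hev2)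
  refine ⟨Cf / 2, max B0 1, by positivity, le_max_right _ _, fun B hB => ?_⟩
  obtain ⟨hB1, hB2⟩ := hB0 B ((le_max_left _ _).trans hB)
  have hB1' : 1 ≤ B := (le_max_right _ _).trans hB
  have hBpos : 0 < B := by linarith
  have hlogB : 0 ≤ Real.log B := Real.log_nonneg hB1'
  set Bk : ℝ := B ^ (κ / 2) with hBk
  have hBk1 : 1 ≤ Bk := Real.one_le_rpow hB1' (by linarith)
  have hU : 1 ≤ A * Bk := by nlinarith
  obtain ⟨m, hm1, hm2⟩ := exists_pow_window hp2 hU
  obtain ⟨n, hn1, hn2⟩ := exists_pow_window hl2' hU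
  set u : K := ((p ^ m : ℕ) : K) / ((l ^ n : ℕ) : K) with hu
  have hu0 : u ≠ 0 := by
    rw [hu]
    refine div_ne_zero ?_ ?_
    · exact_mod_cast pow_ne_zero m hp.ne_zero
    · exact_mod_cast pow_ne_zero n hl.ne_zero
  have hABk : 0 < A * Bk := by linarith
  have hHu : mulHeight₁ u ≤ (W * Bk) ^ d := by
    refine mulHeight₁_ratio (pow_ne_zero n hl.ne_zero) (W * Bk) ?_ ?_
    · push_cast
      refine hm2.trans ?_
      rw [hW]
      have : (p : ℝ) * (A * Bk) ≤ l * (p * (A * Bk)) :=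
        le_mul_of_one_le_left (by positivity) hlR
      linarith
    · push_cast
      refine hn2.trans ?_
      rw [hW]
      have : (l : ℝ) * (A * Bk) ≤ p * (l * (A * Bk)) :=
        le_mul_of_one_le_left (by positivity) hpR
      linarith
  set ρ : ℝ := B ^ ((d : ℝ) * (1 - κ / 2)) / C5 with hρ
  have hρR : R0 ≤ ρ := by
    rw [hρ, le_div_iff₀ hC5pos]; exact hB1
  have hρ0 : 0 ≤ ρ := by linarith
  obtain ⟨F, hF, hFc⟩ := hlow ρ hρR
  -- choice of the shifts
  have hsh := fun z : K => exists_shift (K := K) hp hl hpge (by omega) z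
  choose σ τ hσ hτ hστ hs1 hs2 using hsh
  -- pigeonhole
  obtain ⟨st, hst, hfib⟩ : ∃ st ∈ ST, (F.card : ℝ) / S ≤
      ((F.filter fun z => (σ z, τ z) = st).card : ℝ) := by
    by_contra hcon
    push Not at hcon
    have h1 : (F.card : ℝ) = ∑ st ∈ ST, ((F.filter fun z => (σ z, τ z) = st).card : ℝ) := by
      exact_mod_cast Finset.card_eq_sum_card_fiberwise (f := fun z => (σ z, τ z)) (t := ST)
        (fun z _ => Finset.mem_product.mpr ⟨hσ z, hτ z⟩)
    have h2 : ∑ st ∈ ST, ((F.filter fun z => (σ z, τ z) = st).card : ℝ) <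
        ∑ st ∈ ST, (F.card : ℝ) / S :=
      Finset.sum_lt_sum_of_nonempty ⟨_, hSTne⟩ hcon
    rw [Finset.sum_const, nsmul_eq_mul, ← hS, mul_div_cancel₀ _ hSpos.ne', ← h1] at h2
    exact lt_irrefl _ h2
  obtain ⟨s, t⟩ := st
  set G := F.filter fun z => (σ z, τ z) = (s, t) with hG
  by_cases hGe : G = ∅
  · -- impossible
    exfalso
    rw [hGe, Finset.card_empty, Nat.cast_zero] at hfib
    have h1 : (0 : ℝ) < F.card := by
      refine lt_of_lt_of_le ?_ hFc
      have : 0 < ρ := by linarith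
      positivity
    have h2 : 0 < (F.card : ℝ) / S := div_pos h1 hSpos
    linarith
  obtain ⟨z0, hz0⟩ := Finset.nonempty_iff_ne_empty.mpr hGe
  have hst' : s ≠ t := by
    rw [hG, Finset.mem_filter] at hz0
    have h1 := congrArg Prod.fst hz0.2
    have h2 := congrArg Prod.snd hz0.2
    simp only at h1 h2
    rw [← h1, ← h2]
    exact hστ z0
  set Ex : Finset K := insert (s : K) (insert (t : K)
    ((exc α r1 r2).image fun y => (u * s - y * t) / (u - y))) with hEx
  have hExc : Ex.card ≤ q + 3 := by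
    rw [hEx]
    refine (Finset.card_insert_le _ _).trans ?_
    have h1 := Finset.card_insert_le (t : K)
      ((exc α r1 r2).image fun y => (u * s - y * t) / (u - y))
    have h2 := Finset.card_image_le (s := exc α r1 r2)
      (f := fun y => (u * s - y * t) / (u - y))
    have h3 := card_exc α r1 r2
    omega
  set G' := G \ Ex with hG'
  have hprop : ∀ z ∈ G', z ≠ t ∧ z ≠ s ∧ yy u s t z ∉ exc α r1 r2 := by
    intro z hz
    rw [hG', Finset.mem_sdiff, hEx, Finset.mem_insert, Finset.mem_insert] at hz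
    push Not at hz
    obtain ⟨hz1, hz2, hz3, hz4⟩ := hz
    refine ⟨hz3, hz2, fun hy => hz4 ?_⟩
    rw [Finset.mem_image]
    refine ⟨_, hy, ?_⟩
    have hzt : z - t ≠ 0 := sub_ne_zero.mpr hz3
    have hstK : (s : K) - t ≠ 0 := by
      intro h
      apply hst'
      exact_mod_cast sub_eq_zero.mp h
    unfold yy
    have h1 : u - u * ((z - s) / (z - t)) = u * ((s : K) - t) / (z - t) := by
      field_simp; ring
    rw [h1]
    have h2 : u * ((s : K) - t) / (z - t) ≠ 0 := div_ne_zero (mul_ne_zero hu0 hstK) hzt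
    rw [div_eq_iff h2]
    field_simp
    ring
  refine ⟨G'.image (xx r1 r2 u s t), ?_, ?_⟩
  · intro x hx
    rw [Finset.mem_image] at hx
    obtain ⟨z, hz, rfl⟩ := hx
    obtain ⟨hz1, hz2, hz3⟩ := hprop z hz
    have hP := pt_snd_ne α h12 hz3
    have hoff : Off α (xx r1 r2 u s t z) := off_xx α hα hl12 hz3
    have hzG : z ∈ G := (Finset.mem_sdiff.mp hz).1
    rw [hG, Finset.mem_filter] at hzG
    obtain ⟨hzF, hzst⟩ := hzG
    have hσz : σ z = s := congrArg Prod.fst hzst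
    have hτz : τ z = t := congrArg Prod.snd hzst
    have hheight : hr (aff (xx r1 r2 u s t z)) ≤ d * Real.log B := by
      rw [hr_aff_eq]
      have h1 : mulHeight₁ (xx r1 r2 u s t z) ≤ B ^ d := by
        have e1 : mulHeight₁ (xx r1 r2 u s t z) ≤ C2 * mulHeight₁ (yy u s t z) := hH2 _
        have e2 : mulHeight₁ (yy u s t z) ≤ mulHeight₁ u * mulHeight₁ ((z - s) / (z - t)) :=
          mulHeight₁_mul_le _ _
        have e3 : mulHeight₁ ((z - s) / (z - t)) ≤ C1 * ρ := by
          refine (hHst (s, t) z).trans ?_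
          exact mul_le_mul (hC1le _ hst) (hF z hzF) (mulHeight₁_nonneg _) hC1pos.le
        have e4 : mulHeight₁ (yy u s t z) ≤ (W * Bk) ^ d * (C1 * ρ) :=
          e2.trans (mul_le_mul hHu e3 (mulHeight₁_nonneg _) (by positivity))
        have e5 : mulHeight₁ (xx r1 r2 u s t z) ≤ C2 * ((W * Bk) ^ d * (C1 * ρ)) :=
          e1.trans (mul_le_mul_of_nonneg_left e4 hC2.le)
        refine e5.trans (le_of_eq ?_)
        have e6 : Bk ^ d * B ^ ((d : ℝ) * (1 - κ / 2)) = B ^ d := by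
          rw [hBk, ← Real.rpow_natCast, ← Real.rpow_mul hBpos.le, ← Real.rpow_add hBpos,
            ← Real.rpow_natCast]
          congr 1
          ring
        calc C2 * ((W * Bk) ^ d * (C1 * ρ)) =
            (C2 * C1 * W ^ d) * (Bk ^ d * B ^ ((d : ℝ) * (1 - κ / 2))) / C5 := by
              rw [hρ, mul_pow]; ring
          _ = C5 * B ^ d / C5 := by rw [e6, ← hC5]
          _ = B ^ d := by field_simp
      have h2 := Real.log_le_log (mulHeight₁_pos _) h1
      rwa [Real.log_pow] at h2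
    refine ⟨hoff, ?_, hheight⟩
    have h1 : NTc T α (xx r1 r2 u s t z) ≤ q * hr (aff (xx r1 r2 u s t z)) + C3 -
        d * (m * Real.log p + n * Real.log l) :=
      hC3 m n s t z hz1 hz2 (by rw [← hσz, ← hτz]; exact hs1 z)
      (by rw [← hσz, ← hτz]; exact hs2 z) hP hoff
    refine h1.trans_lt ?_
    have h2 : Real.log (A * Bk) ≤ m * Real.log p := by
      have := Real.log_le_log hABk hm1
      rwa [Real.log_pow] at this
    have h3 : Real.log (A * Bk) ≤ n * Real.log l := by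
      have := Real.log_le_log hABk hn1
      rwa [Real.log_pow] at this
    have h4 : Real.log (A * Bk) = |C3 - c0| + 1 + κ / 2 * Real.log B := by
      rw [Real.log_mul (by positivity) (by positivity), hlogA, hBk, Real.log_rpow hBpos]
    rw [h4] at h2 h3
    exact final_ineq (by exact_mod_cast hd0) hκ0 hheight h2 h3
  · have hinj : Set.InjOn (xx r1 r2 u s t) (G' : Set K) := by
      intro z hz z' hz' he
      obtain ⟨hz1, hz2, hz3⟩ := hprop z hz
      obtain ⟨hz1', hz2', hz3'⟩ := hprop z' hz'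
      have h1 := pt_inj h12 (pt_snd_ne α h12 hz3) (pt_snd_ne α h12 hz3') he
      exact yy_inj hu0 hst' hz1 hz1' h1
    rw [Finset.card_image_of_injOn hinj]
    have h1 : (G.card : ℝ) - (q + 3) ≤ G'.card := by
      have h2 : G.card ≤ G'.card + Ex.card := by
        have := Finset.card_le_card_sdiff_add_card (s := G) (t := Ex)
        rw [hG']
        omega
      have h3 : (G.card : ℝ) ≤ G'.card + (q + 3) := by
        have : G.card ≤ G'.card + (q + 3) := by omega
        exact_mod_cast this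
      linarith
    refine le_trans ?_ h1
    have h2 : Cf * B ^ ((d : ℝ) * (2 - κ)) ≤ G.card := by
      refine le_trans ?_ hfib
      rw [le_div_iff₀ hSpos]
      refine le_trans (le_of_eq ?_) hFc
      have e : B ^ ((d : ℝ) * (2 - κ)) = (B ^ ((d : ℝ) * (1 - κ / 2))) ^ 2 := by
        rw [← Real.rpow_natCast, ← Real.rpow_mul hBpos.le]
        congr 1
        push_cast
        ring
      rw [e, hρ, hCf]
      field_simp
    rw [div_le_iff₀ hCfpos] at hB2
    linarith

end Pool.Agent.W221.Exc
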