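import Pool.Agent.H691R3.ReflectN
import Pool.Agent.H691R3.SelGen

set_option autoImplicit false

/-!
Selection of methods: the case of three forms with excess at least `1`, and reduction to
sub-families of forms.
-/

namespace Pool.Agent.W221.Exc

open Finset Pool.Agent.H691R3

universe u

/-- the case tree for three forms and excess `1` -/
def tree31 : CTree :=
  (.node 1 0 1 446 (.node 2 0 2 373 (.node 1 0 1 438 (.node 2 1 2 494 (.node 2 0 1 429
      (.node 2 1 2 366 (.leaf [1, 1, 0, 3, 1, 0, 2, 2, 2])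
      (.leaf [1, 0, 0, 2, 0, 0, 0, 1, 1]))
      (.leaf [1, 0, 2, 0, 0, 1, 1]))
      (.leaf [1, 2, 0, 0, 0, 1, 1]))
      (.leaf [1, 0, 0, 0, 0, 0, 1]))
      (.leaf [1, 0, 1, 0, 1, 2]))
      (.leaf [1, 0, 0, 0, 1]))

theorem check31 : checkN 3 3 1 1 1000000 tree31 (baseHN 3 3 1 1) = true := by
  decide +kernel

theorem sel_three_one (κ : ℝ) (hκ : 1 ≤ κ) : Sel.{u} 3 κ 1 := by
  have h := sel_of_checkN.{u} (κ := κ) 3 1 1 1000000 1 1 (by norm_num) (by norm_num)
    (by push_cast; linarith) tree31 check31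
  have e : ((1 : ℕ) : ℝ) / ((1 : ℕ) : ℝ) = 1 := by norm_num
  rwa [e] at h

theorem sel_below_one {q : ℕ} (hq : 2 ≤ q) (h1 : Sel.{u} q 1 1) {κ : ℝ} (hκ : κ ≤ 1) :
    Sel.{u} q κ (2 - κ) := by
  classical
  obtain ⟨Cm, hCm, h⟩ := h1
  refine ⟨Cm + 1, by linarith, ?_⟩
  intro ι B w c lab m X C hB
  have hX := hB.hX
  have hC := hB.hC
  by_cases hbig : 1 * X - C ≤ ∑ a ∈ B, (w a - c a)
  · obtain ⟨k, i1, i2, I, e1, e2, e3, e4, e5, e6⟩ := h ι B w c lab m X C
      { hX := hB.hX, hC := hB.hC, c0 := hB.c0, w0 := hB.w0, m1 := hB.m1, cw := hB.cw,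
        form := hB.form, exc := hbig }
    refine ⟨k, i1, i2, I, e1, e2, e3, e4, e5, e6.trans ?_⟩
    have := mul_le_mul_of_nonneg_right hκ hX
    nlinarith
  · push Not at hbig
    refine ⟨1, ⟨0, by omega⟩, ⟨1, by omega⟩, B.filter (fun a => c a ≤ w a / 2), le_rfl,
      by norm_num, by simp [Fin.ext_iff], Finset.filter_subset _ _, ?_, ?_⟩
    · intro a _ _ hk
      exact absurd (one_dvd _) hk
    · simp only [gain_one]
      have h2 := exc_small hB
      have h3 : ∑ a ∈ B with c a ≤ w a / 2, (w a - c a) ≤ ∑ a ∈ B, (w a - c a) :=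
        Finset.sum_le_sum_of_subset_of_nonneg (Finset.filter_subset _ _)
          (fun a ha _ => by have := c_le_w hB ha; linarith)
      have h4 : ∑ a ∈ B with c a ≤ w a / 2, w a ≤
          2 * ∑ a ∈ B with c a ≤ w a / 2, (w a - c a) := by
        rw [Finset.mul_sum]
        refine Finset.sum_le_sum fun a ha => ?_
        rw [Finset.mem_filter] at ha
        linarith [ha.2]
      have h5 : ∑ a ∈ B with c a ≤ w a / 2, (w a - c a) =
          ∑ a ∈ B with c a ≤ w a / 2, w a - ∑ a ∈ B with c a ≤ w a / 2, c a :=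
        Finset.sum_sub_distrib _ _
      have h6 : 0 ≤ 2 * X / ((1 : ℕ) : ℝ) - ∑ a ∈ B with c a ≤ w a / 2, w a := by
        push_cast
        linarith
      rw [max_eq_right h6]
      push_cast
      have h7 : 0 ≤ Cm * C := mul_nonneg hCm hC
      linarith

end Pool.Agent.W221.Exc
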