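import Pool.Agent.H691R3.Main2
import Pool.Agent.H691R3.SelMain
import Pool.Agent.W221.ExcLow5
import Pool.Agent.W221.SelX

set_option autoImplicit false

/-!
Points with few reductions: the normalised statements, upper and lower bounds.
-/

namespace Pool.Agent.W221.Exc

open NumberField IsDedekindDomain

/-- the absolute logarithmic height of the point `[x : 1]` -/
noncomputable def height {K : Type} [Field K] [NumberField K] (x : K) : ℝ :=
  (∑ w : InfinitePlace K, (w.mult : ℝ) * Real.log (max (w x) (w 1)) +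
    ∑ᶠ v : HeightOneSpectrum (RingOfIntegers K),
      Real.log (max (FinitePlace.mk v x) (FinitePlace.mk v 1))) /
    (Module.finrank ℚ K : ℝ)

/-- the truncated counting function -/
noncomputable def counting {K : Type} [Field K] [NumberField K]
    (T : Set (HeightOneSpectrum (RingOfIntegers K))) {q : ℕ} (α : Fin q → K × K) (x : K) : ℝ :=
  ∑ᶠ (v : HeightOneSpectrum (RingOfIntegers K)) (_ : v ∉ T),
    ∑ l : Fin q,
      min
        (Real.log
            (max (FinitePlace.mk v x) (FinitePlace.mk v 1) *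
              max (FinitePlace.mk v (α l).1) (FinitePlace.mk v (α l).2) /
              FinitePlace.mk v (x * (α l).2 - 1 * (α l).1)) /
          (Module.finrank ℚ K : ℝ))
        (Real.log (Ideal.absNorm v.asIdeal : ℝ) / (Module.finrank ℚ K : ℝ))

/-- the exceptional set up to height `B` -/
def exceptional {K : Type} [Field K] [NumberField K]
    (T : Set (HeightOneSpectrum (RingOfIntegers K))) {q : ℕ} (α : Fin q → K × K)
    (κ c B : ℝ) : Set K :=
  {x : K | (∀ l, x * (α l).2 - 1 * (α l).1 ≠ 0) ∧ Real.exp (height x) ≤ B ∧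
    counting T α x < ((q : ℝ) - κ) * height x + c}

section

variable {K : Type} [Field K] [NumberField K]

lemma height_mul (x : K) : (Module.finrank ℚ K : ℝ) * height x =
    Pool.Agent.H691R3.hr (Pool.Agent.H691R3.aff x) := by
  have hdpos : (0 : ℝ) < (Module.finrank ℚ K : ℝ) := by exact_mod_cast Module.finrank_pos
  unfold height
  rw [mul_div_cancel₀ _ hdpos.ne']
  rfl

lemma counting_mul (T : Set (HeightOneSpectrum (RingOfIntegers K))) {q : ℕ} (α : Fin q → K × K)
    (x : K) : (Module.finrank ℚ K : ℝ) * counting T α x = Pool.Agent.H691R3.NTc T α x := by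
  classical
  have hdpos : (0 : ℝ) < (Module.finrank ℚ K : ℝ) := by exact_mod_cast Module.finrank_pos
  unfold counting Pool.Agent.H691R3.NTc
  rw [mul_finsum]
  refine finsum_congr fun v => ?_
  rw [finsum_eq_if, finsum_eq_if]
  split_ifs with hv
  · rw [mul_zero]
  rw [Finset.mul_sum]
  refine Finset.sum_congr rfl fun l _ => ?_
  rw [mul_min_of_nonneg _ _ hdpos.le, mul_div_cancel₀ _ hdpos.ne', mul_div_cancel₀ _ hdpos.ne']
  rfl

/-- upper bound from a selection principle -/
theorem upper (T : Set (HeightOneSpectrum (RingOfIntegers K))) (hT : T.Finite) {q : ℕ}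
    (hq : 2 ≤ q) (α : Fin q → K × K) (hα0 : ∀ i, α i ≠ 0)
    (hα : ∀ i j, i ≠ j → (α i).1 * (α j).2 - (α i).2 * (α j).1 ≠ 0)
    (κ c δ e : ℝ) (hκ0 : 0 ≤ κ) (hδ : 0 < δ) (he0 : 0 ≤ e)
    (hsel : Pool.Agent.H691R3.Sel.{0} q κ e) :
    ∃ C : ℝ, ∀ B : ℝ, 1 ≤ B → (exceptional T α κ c B).Finite ∧
      ((exceptional T α κ c B).ncard : ℝ) ≤ C * B ^ ((Module.finrank ℚ K : ℝ) * e + δ) := by
  classical
  set d : ℝ := (Module.finrank ℚ K : ℝ) with hd
  have hdpos : 0 < d := by
    rw [hd]
    exact_mod_cast Module.finrank_pos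
  obtain ⟨C, hC, hmain⟩ := Pool.Agent.H691R3.count_all2 hq T hT α hα0 hα κ e hκ0
    he0 hsel (max (d * c) 0) (le_max_right _ _) (δ / d) (div_pos hδ hdpos)
  refine ⟨C, fun B hB => ?_⟩
  set V : Set K := exceptional T α κ c B with hV
  have hB0 : 0 < B := by linarith
  have hlogB : 0 ≤ Real.log B := Real.log_nonneg hB
  have hbound : ∀ E : Finset K, (E : Set K) ⊆ V →
      (E.card : ℝ) ≤ C * B ^ (d * e + δ) := by
    intro E hE
    have h1 := hmain (d * Real.log B) (mul_nonneg hdpos.le hlogB) E ?_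
    · refine h1.trans (le_of_eq ?_)
      rw [Real.rpow_def_of_pos hB0]
      congr 2
      field_simp
    · intro x hx
      have hxV := hE hx
      rw [hV, exceptional, Set.mem_ofPred_eq] at hxV
      obtain ⟨h2, h3, h4⟩ := hxV
      refine ⟨h2, ?_, ?_⟩
      · rw [← counting_mul, ← height_mul]
        have h5 : d * counting T α x < d * (((q : ℝ) - κ) * height x + c) :=
          mul_lt_mul_of_pos_left h4 hdpos
        have h6 : d * (((q : ℝ) - κ) * height x + c) =
            ((q : ℝ) - κ) * (d * height x) + d * c := by ring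
        rw [h6] at h5
        exact h5.trans_le (add_le_add le_rfl (le_max_left _ _))
      · rw [← height_mul]
        refine mul_le_mul_of_nonneg_left ?_ hdpos.le
        rw [Real.le_log_iff_exp_le hB0]
        exact h3
  have hnn : 0 ≤ C * B ^ (d * e + δ) := by positivity
  have hfin : V.Finite := by
    by_contra hinf
    obtain ⟨E, hEV, hEc⟩ := Set.Infinite.exists_subset_card_eq hinf
      (⌊C * B ^ (d * e + δ)⌋₊ + 1)
    have h1 := hbound E hEV
    have h2 := Nat.lt_floor_add_one (C * B ^ (d * e + δ))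
    rw [hEc] at h1
    push_cast at h1
    linarith
  refine ⟨hfin, ?_⟩
  rw [Set.ncard_eq_toFinset_card V hfin]
  exact hbound hfin.toFinset (by rw [Set.Finite.coe_toFinset])

/-- lower bound -/
theorem lower (T : Set (HeightOneSpectrum (RingOfIntegers K))) {q : ℕ}
    (hq : 2 ≤ q) (α : Fin q → K × K) (hα0 : ∀ i, α i ≠ 0)
    (hα : ∀ i j, i ≠ j → (α i).1 * (α j).2 - (α i).2 * (α j).1 ≠ 0)
    (κ c : ℝ) (hκ0 : 0 ≤ κ) (hκ2 : κ < 2) :
    ∃ C B0 : ℝ, 0 < C ∧ 1 ≤ B0 ∧ ∀ B : ℝ, B0 ≤ B →
      ∃ E : Finset K, (E : Set K) ⊆ exceptional T α κ c B ∧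
        C * B ^ ((Module.finrank ℚ K : ℝ) * (2 - κ)) ≤ E.card := by
  have hdpos : (0 : ℝ) < (Module.finrank ℚ K : ℝ) := by exact_mod_cast Module.finrank_pos
  obtain ⟨C, B0, hC, hB0, h⟩ := low (K := K) T α hα0 hα hq κ
    ((Module.finrank ℚ K : ℝ) * c) hκ0 hκ2
  refine ⟨C, B0, hC, hB0, fun B hB => ?_⟩
  obtain ⟨E, hE, hcard⟩ := h B hB
  refine ⟨E, ?_, hcard⟩
  intro x hx
  obtain ⟨h1, h2, h3⟩ := hE x hx
  have hBpos : 0 < B := by linarith
  refine ⟨h1, ?_, ?_⟩
  · rw [← height_mul] at h3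
    have h4 := le_of_mul_le_mul_left h3 hdpos
    rwa [Real.le_log_iff_exp_le hBpos] at h4
  · rw [← counting_mul, ← height_mul] at h2
    refine lt_of_mul_lt_mul_left (a := (Module.finrank ℚ K : ℝ)) ?_ hdpos.le
    refine h2.trans_le (le_of_eq ?_)
    ring

end

end Pool.Agent.W221.Exc
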