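import Pool.Agent.W221.Cert3

set_option autoImplicit false

/-!
The exponent for three forms, and the reduction of `q` forms to fewer forms.
-/

namespace Pool.Agent.W221.Exc

open Finset Pool.Agent.H691R3

universe u

/-- the exponent for three forms -/
noncomputable def E3 (t : ℝ) : ℝ :=
  if t ≤ 1 then 2 - t
  else if t ≤ 4 / 3 then 1
  else if t ≤ 17 / 12 then 7 / 3 - t
  else if t ≤ 3 / 2 then 13 / 8 - t / 2
  else if t ≤ 17 / 10 then 29 / 16 - 5 * t / 8
  else if t ≤ 7 / 4 then 3 / 4
  else if t ≤ 9 / 5 then 5 / 2 - t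
  else if t ≤ 13 / 7 then 8 / 5 - t / 2
  else if t ≤ 19 / 10 then 47 / 70
  else if t ≤ 8512 / 4185 then 2 - 93 * t / 133
  else if t ≤ 94 / 45 then 26 / 45
  else if t ≤ 47 / 22 then 2 - 32 * t / 47
  else if t ≤ 24 / 11 then 6 / 11
  else 2 - 2 * t / 3

lemma sel_cst {κ : ℝ} (kn kd en ed Cm : ℕ) (hed : 1 ≤ ed) (t : CTree)
    (ht : checkN 3 5 en ed Cm t (baseHN 3 5 kn kd) = true) (hκ : (kn : ℝ) ≤ kd * κ) :
    Sel.{u} 3 κ ((en : ℝ) / ed) :=
  sel_of_checkN 5 en ed Cm kn kd (by norm_num) hed hκ t ht

theorem sel_E3 (κ : ℝ) : Sel.{u} 3 κ (E3 κ) := by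
  unfold E3
  by_cases h1 : κ ≤ 1
  · rw [if_pos h1]
    exact sel_below_one (by norm_num) (sel_three_one 1 le_rfl) h1
  rw [if_neg h1]
  by_cases h2 : κ ≤ 4 / 3
  · rw [if_pos h2]
    exact sel_three_one κ (not_le.mp h1).le
  rw [if_neg h2]
  by_cases h3 : κ ≤ 17 / 12
  · rw [if_pos h3]
    have h := sel_line (κ := κ) 5 7 3 3 1000000000000 4 3 17 12 (by norm_num)
      (by norm_num) (by norm_num) (by push_cast; linarith [not_le.mp h2])
      (by push_cast; exact h3) t_c2 chk_c2
      (by
        have h := sel_cst.{u} (κ := ((17 : ℕ) : ℝ) / (12 : ℕ)) 17 12 11 12 _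
          (by norm_num) t_c1 chk_c1 (by norm_num)
        convert h using 1
        norm_num)
    convert h using 1
    push_cast; ring
  rw [if_neg h3]
  by_cases h4 : κ ≤ 3 / 2
  · rw [if_pos h4]
    have h := sel_line (κ := κ) 5 13 8 4 1000000000000 17 12 3 2 (by norm_num)
      (by norm_num) (by norm_num) (by push_cast; linarith [not_le.mp h3])
      (by push_cast; exact h4) t_c4 chk_c4
      (by
        have h := sel_cst.{u} (κ := ((3 : ℕ) : ℝ) / (2 : ℕ)) 3 2 7 8 _
          (by norm_num) t_c3 chk_c3 (by norm_num)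
        convert h using 1
        norm_num)
    convert h using 1
    push_cast; ring
  rw [if_neg h4]
  by_cases h5 : κ ≤ 17 / 10
  · rw [if_pos h5]
    have h := sel_line (κ := κ) 5 29 16 10 1000000000000 3 2 17 10 (by norm_num)
      (by norm_num) (by norm_num) (by push_cast; linarith [not_le.mp h4])
      (by push_cast; exact h5) t_c6 chk_c6
      (by
        have h := sel_cst.{u} (κ := ((17 : ℕ) : ℝ) / (10 : ℕ)) 17 10 3 4 _
          (by norm_num) t_c5 chk_c5 (by norm_num)
        convert h using 1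
        norm_num)
    convert h using 1
    push_cast; ring
  rw [if_neg h5]
  by_cases h6 : κ ≤ 7 / 4
  · rw [if_pos h6]
    have h := sel_cst.{u} (κ := κ) 17 10 3 4 _ (by norm_num) t_c5 chk_c5
      (by push_cast; linarith [not_le.mp h5])
    convert h using 1
    norm_num
  rw [if_neg h6]
  by_cases h7 : κ ≤ 9 / 5
  · rw [if_pos h7]
    have h := sel_line (κ := κ) 5 5 2 2 1000000000000 7 4 9 5 (by norm_num)
      (by norm_num) (by norm_num) (by push_cast; linarith [not_le.mp h6])
      (by push_cast; exact h7) t_c8 chk_c8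
      (by
        have h := sel_cst.{u} (κ := ((9 : ℕ) : ℝ) / (5 : ℕ)) 9 5 7 10 _
          (by norm_num) t_c7 chk_c7 (by norm_num)
        convert h using 1
        norm_num)
    convert h using 1
    push_cast; ring
  rw [if_neg h7]
  by_cases h8 : κ ≤ 13 / 7
  · rw [if_pos h8]
    have h := sel_line (κ := κ) 5 16 10 5 1000000000000 9 5 13 7 (by norm_num)
      (by norm_num) (by norm_num) (by push_cast; linarith [not_le.mp h7])
      (by push_cast; exact h8) t_c10 chk_c10
      (by
        have h := sel_cst.{u} (κ := ((13 : ℕ) : ℝ) / (7 : ℕ)) 13 7 47 70 _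
          (by norm_num) t_c9 chk_c9 (by norm_num)
        convert h using 1
        norm_num)
    convert h using 1
    push_cast; ring
  rw [if_neg h8]
  by_cases h9 : κ ≤ 19 / 10
  · rw [if_pos h9]
    have h := sel_cst.{u} (κ := κ) 13 7 47 70 _ (by norm_num) t_c9 chk_c9
      (by push_cast; linarith [not_le.mp h8])
    convert h using 1
    norm_num
  rw [if_neg h9]
  by_cases h10 : κ ≤ 8512 / 4185
  · rw [if_pos h10]
    have h := sel_line (κ := κ) 5 266 133 93 1000000000000 19 10 8512 4185 (by norm_num)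
      (by norm_num) (by norm_num) (by push_cast; linarith [not_le.mp h9])
      (by push_cast; exact h10) t_c12 chk_c12
      (by
        have h := sel_cst.{u} (κ := ((8512 : ℕ) : ℝ) / (4185 : ℕ)) 8512 4185 26 45 _
          (by norm_num) t_c11 chk_c11 (by norm_num)
        convert h using 1
        norm_num)
    convert h using 1
    push_cast; ring
  rw [if_neg h10]
  by_cases h11 : κ ≤ 94 / 45
  · rw [if_pos h11]
    have h := sel_cst.{u} (κ := κ) 8512 4185 26 45 _ (by norm_num) t_c11 chk_c11
      (by push_cast; linarith [not_le.mp h10])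
    convert h using 1
    norm_num
  rw [if_neg h11]
  by_cases h12 : κ ≤ 47 / 22
  · rw [if_pos h12]
    have h := sel_line (κ := κ) 5 94 47 32 1000000000000 94 45 47 22 (by norm_num)
      (by norm_num) (by norm_num) (by push_cast; linarith [not_le.mp h11])
      (by push_cast; exact h12) t_c14 chk_c14
      (by
        have h := sel_cst.{u} (κ := ((47 : ℕ) : ℝ) / (22 : ℕ)) 47 22 6 11 _
          (by norm_num) t_c13 chk_c13 (by norm_num)
        convert h using 1
        norm_num)
    convert h using 1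
    push_cast; ring
  rw [if_neg h12]
  by_cases h13 : κ ≤ 24 / 11
  · rw [if_pos h13]
    have h := sel_cst.{u} (κ := κ) 47 22 6 11 _ (by norm_num) t_c13 chk_c13
      (by push_cast; linarith [not_le.mp h12])
    convert h using 1
    norm_num
  rw [if_neg h13]
  have h := sel_two.{u} (q := 3) (by norm_num) κ
  convert h using 1
  norm_num

/-- a subset of given size with at least average sum -/
lemma exists_heavy {q : ℕ} (f : Fin q → ℝ) (r : ℕ) (hr : r ≤ q) :
    ∃ S : Finset (Fin q), S.card = r ∧ (r : ℝ) * ∑ i, f i ≤ q * ∑ i ∈ S, f i := by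
  classical
  -- descending induction
  have key : ∀ s : ℕ, s ≤ q → ∃ S : Finset (Fin q), S.card = q - s ∧
      ((q - s : ℕ) : ℝ) * ∑ i, f i ≤ q * ∑ i ∈ S, f i := by
    intro s
    induction s with
    | zero =>
      intro _
      refine ⟨Finset.univ, by simp, ?_⟩
      simp
    | succ s ih =>
      intro hs
      obtain ⟨S, hS1, hS2⟩ := ih (by omega)
      have hne : S.Nonempty := by
        rw [← Finset.card_pos, hS1]; omega
      obtain ⟨i0, hi0, hmin⟩ := Finset.exists_min_image S f hne
      refine ⟨S.erase i0, ?_, ?_⟩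
      · rw [Finset.card_erase_of_mem hi0, hS1]; omega
      · have h1 : ∑ i ∈ S.erase i0, f i + f i0 = ∑ i ∈ S, f i :=
          Finset.sum_erase_add S f hi0
        have h2 : (S.card : ℝ) * f i0 ≤ ∑ i ∈ S, f i := by
          rw [← nsmul_eq_mul]
          exact Finset.card_nsmul_le_sum S f _ hmin
        rw [hS1] at h2
        have h3 : ((q - s : ℕ) : ℝ) = ((q - (s + 1) : ℕ) : ℝ) + 1 := by
          have : q - s = (q - (s + 1)) + 1 := by omega
          rw [this]; push_cast; ring
        set n : ℝ := ((q - (s + 1) : ℕ) : ℝ) with hn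
        have hn0 : 0 ≤ n := by rw [hn]; positivity
        rw [h3] at hS2 h2
        -- (n+1) Σ f ≤ q Σ_S f,  (n+1) f i0 ≤ Σ_S f
        have h4 : (n + 1) * (n * ∑ i, f i) ≤ (n + 1) * (q * ∑ i ∈ S.erase i0, f i) := by
          have h5 : (n + 1) * (n * ∑ i, f i) ≤ n * (q * ∑ i ∈ S, f i) := by
            have := mul_le_mul_of_nonneg_left hS2 hn0
            linarith
          have h6 : n * (q * ∑ i ∈ S, f i) ≤ (n + 1) * (q * ∑ i ∈ S.erase i0, f i) := by
            have h7 : ∑ i ∈ S.erase i0, f i = ∑ i ∈ S, f i - f i0 := by linarith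
            rw [h7]
            have hq0 : (0 : ℝ) ≤ q := Nat.cast_nonneg _
            have h8 := mul_le_mul_of_nonneg_left h2 hq0
            nlinarith
          exact h5.trans h6
        exact le_of_mul_le_mul_left h4 (by linarith)
  obtain ⟨S, hS1, hS2⟩ := key (q - r) (by omega)
  have e : q - (q - r) = r := by omega
  rw [e] at hS1 hS2
  exact ⟨S, hS1, hS2⟩

/-- reduction to fewer forms -/
theorem sel_restrict {q r : ℕ} (hr : 1 ≤ r) (hrq : r ≤ q) {κ e : ℝ}
    (h : Sel.{u} r (r * κ / q) e) : Sel.{u} q κ e := by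
  classical
  obtain ⟨Cm, hCm, h⟩ := h
  refine ⟨Cm, hCm, ?_⟩
  intro ι B w c lab m X C hB
  have hX := hB.hX
  have hC := hB.hC
  have hq : 0 < q := by omega
  have hqR : (0 : ℝ) < q := by exact_mod_cast hq
  have hrR : (1 : ℝ) ≤ r := by exact_mod_cast hr
  have hwc : ∀ a ∈ B, 0 ≤ w a - c a := fun a ha => by have := c_le_w hB ha; linarith
  set f : Fin q → ℝ := fun l => ∑ a ∈ B with lab a = l, (w a - c a) with hf
  obtain ⟨S, hS1, hS2⟩ := exists_heavy f r hrq
  have htot : ∑ l, f l = ∑ a ∈ B, (w a - c a) := by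
    rw [hf]
    exact Finset.sum_fiberwise B lab (fun a => w a - c a)
  have hSsum : ∑ l ∈ S, f l = ∑ a ∈ B with lab a ∈ S, (w a - c a) := by
    rw [hf]
    rw [← Finset.sum_fiberwise_of_maps_to (s := B.filter fun a => lab a ∈ S) (t := S) (g := lab)
      (fun a ha => (Finset.mem_filter.mp ha).2)]
    refine Finset.sum_congr rfl fun l hl => ?_
    refine Finset.sum_congr ?_ fun a _ => rfl
    ext a
    simp only [Finset.mem_filter]
    constructor
    · rintro ⟨h1, h2⟩
      exact ⟨⟨h1, by rw [h2]; exact hl⟩, h2⟩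
    · rintro ⟨⟨h1, _⟩, h2⟩
      exact ⟨h1, h2⟩
  -- the equivalence
  set eqv : S ≃ Fin r := S.equivFinOfCardEq hS1 with heqv
  have hr0 : 0 < r := hr
  set lab' : ι → Fin r := fun a => if hl : lab a ∈ S then eqv ⟨lab a, hl⟩ else ⟨0, hr0⟩ with hlab'
  set B' := B.filter fun a => lab a ∈ S with hB'
  have hlab : ∀ a ∈ B', ∀ i : Fin r, lab' a = i ↔ lab a = (eqv.symm i : Fin q) := by
    intro a ha i
    have hl : lab a ∈ S := (Finset.mem_filter.mp ha).2
    rw [hlab']
    simp only [hl, dif_pos]
    constructor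
    · intro h1
      rw [← h1, Equiv.symm_apply_apply]
    · intro h1
      have h2 : (⟨lab a, hl⟩ : S) = eqv.symm i := Subtype.ext h1
      rw [h2, Equiv.apply_symm_apply]
  have hBl : Blocks r B' w c lab' m X C (r * κ / q) :=
    { hX := hX
      hC := hC
      c0 := fun a ha => hB.c0 a (Finset.mem_filter.mp ha).1
      w0 := fun a ha => hB.w0 a (Finset.mem_filter.mp ha).1
      m1 := fun a ha => hB.m1 a (Finset.mem_filter.mp ha).1
      cw := fun a ha => hB.cw a (Finset.mem_filter.mp ha).1
      form := fun i => by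
        refine le_trans (le_of_eq ?_) (hB.form (eqv.symm i))
        refine Finset.sum_congr ?_ fun a _ => rfl
        ext a
        simp only [Finset.mem_filter]
        constructor
        · rintro ⟨h1, h2⟩
          exact ⟨(Finset.mem_filter.mp h1).1, (hlab a h1 i).mp h2⟩
        · rintro ⟨h1, h2⟩
          have h3 : a ∈ B' := Finset.mem_filter.mpr ⟨h1, by
            show lab a ∈ S
            rw [h2]
            exact (eqv.symm i).2⟩
          exact ⟨h3, (hlab a h3 i).mpr h2⟩
      exc := by
        rw [← hSsum]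
        have h1 := hB.exc
        rw [← htot] at h1
        have h2 : (r : ℝ) * (κ * X - C) ≤ r * ∑ l, f l :=
          mul_le_mul_of_nonneg_left h1 (by linarith)
        have h3 : (r : ℝ) * (κ * X - C) ≤ q * ∑ l ∈ S, f l := h2.trans hS2
        have h4 : (r : ℝ) * κ / q * X - C ≤ (r * (κ * X - C)) / q := by
          rw [le_div_iff₀ hqR]
          have h5 : ((r : ℝ) * κ / q * X - C) * q = r * κ * X - q * C := by
            field_simp
          rw [h5]
          have h6 : (r : ℝ) * C ≤ q * C := by
            refine mul_le_mul_of_nonneg_right ?_ hC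
            exact_mod_cast hrq
          linarith
        refine h4.trans ?_
        rw [div_le_iff₀ hqR]
        linarith }
  obtain ⟨k, i1, i2, I, e1, e2, e3, e4, e5, e6⟩ := h ι B' w c lab' m X C hBl
  refine ⟨k, eqv.symm i1, eqv.symm i2, I, e1, e2, ?_, e4.trans (Finset.filter_subset _ _), ?_, ?_⟩
  · intro h1
    exact e3 (eqv.symm.injective (Subtype.ext h1))
  · intro a ha hl hk
    have hS : lab a ∈ S := by
      rcases hl with h1 | h1
      · rw [h1]; exact (eqv.symm i1).2
      · rw [h1]; exact (eqv.symm i2).2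
    have ha' : a ∈ B' := Finset.mem_filter.mpr ⟨ha, hS⟩
    refine e5 a ha' ?_ hk
    rw [hlab a ha', hlab a ha']
    exact hl
  · have hg : ∑ a ∈ I, gain lab w k (eqv.symm i1) (eqv.symm i2) a =
        ∑ a ∈ I, gain lab' w k i1 i2 a := by
      refine Finset.sum_congr rfl fun a ha => ?_
      unfold gain
      simp only [hlab a (e4 ha)]
    rw [hg]
    exact e6

end Pool.Agent.W221.Exc
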