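import Pool.Agent.H691R3.Data2
import Pool.Agent.H437R2.Man.LowCount2

set_option autoImplicit false
set_option linter.unusedSectionVars false

/-!
Preparations for the lower bound of the number of points with few reductions.
-/

namespace Pool.Agent.W221.Exc

open NumberField IsDedekindDomain Finset Height
open Pool.Agent.H691R3

variable {K : Type*} [Field K] [NumberField K]

/-- the relative logarithmic height is the logarithm of Mathlib's height -/
lemma hr_aff_eq (x : K) : hr (aff x) = Real.log (mulHeight₁ x) := by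
  rw [← logHeight₁_eq_log_mulHeight₁, NumberField.logHeight₁_eq]
  unfold hr aff
  congr 1
  · refine Finset.sum_congr rfl fun w _ => ?_
    rw [map_one, Real.posLog_eq_log_max_one (apply_nonneg _ _), max_comm]
  · rw [← finsum_comp_equiv (FinitePlace.equivHeightOneSpectrum (K := K)).symm]
    refine finsum_congr fun v => ?_
    rw [Real.posLog_eq_log_max_one (apply_nonneg _ _), max_comm]
    simp only [map_one]
    rfl

lemma fv_nat_le_one (v : HeightOneSpectrum (𝓞 K)) (n : ℕ) : fv v (n : K) ≤ 1 := by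
  induction n with
  | zero => simp
  | succ n ih =>
    push_cast
    refine (fv_na v _ _).trans (max_le ih ?_)
    rw [map_one]

lemma fv_int_le_one (v : HeightOneSpectrum (𝓞 K)) (n : ℤ) : fv v (n : K) ≤ 1 := by
  rcases Int.eq_nat_or_neg n with ⟨m, rfl | rfl⟩
  · exact_mod_cast fv_nat_le_one v m
  · push_cast
    rw [(fv v).map_neg]
    exact fv_nat_le_one v m

lemma fv_eq_one_of_coprime (v : HeightOneSpectrum (𝓞 K)) {a b : ℕ} (ha : fv v (a : K) < 1)
    (hab : Nat.Coprime a b) : fv v (b : K) = 1 := by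
  have h1 : IsCoprime (a : ℤ) (b : ℤ) := Nat.isCoprime_iff_coprime.mpr hab
  obtain ⟨r, s, hrs⟩ := h1
  have h2 : (r : K) * (a : K) + (s : K) * (b : K) = 1 := by exact_mod_cast hrs
  have h3 := fv_na v ((r : K) * (a : K)) ((s : K) * (b : K))
  rw [h2, map_one] at h3
  have h4 : fv v ((r : K) * (a : K)) < 1 := by
    rw [(fv v).map_mul]
    have := mul_le_mul_of_nonneg_right (fv_int_le_one v r) ((fv v).nonneg (a : K))
    linarith
  have h5 : 1 ≤ fv v ((s : K) * (b : K)) := by
    rcases le_max_iff.mp h3 with h | h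
    · linarith
    · exact h
  rw [(fv v).map_mul] at h5
  have h6 := mul_le_mul_of_nonneg_right (fv_int_le_one v s) ((fv v).nonneg (b : K))
  exact le_antisymm (fv_nat_le_one v b) (by linarith)

lemma fv_absNorm_lt_one (v : HeightOneSpectrum (𝓞 K)) :
    fv v ((Ideal.absNorm v.asIdeal : ℕ) : K) < 1 := by
  have h := Ideal.absNorm_mem v.asIdeal
  have h2 := (FinitePlace.norm_lt_one_iff_mem (K := K) v ((Ideal.absNorm v.asIdeal : ℕ) : 𝓞 K)).mpr h
  rw [map_natCast (algebraMap (𝓞 K) K)] at h2
  exact h2

/-- a prime number lying under `v` is at most the norm of `v` -/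
lemma prime_le_Nv (v : HeightOneSpectrum (𝓞 K)) {p : ℕ} (hp : p.Prime) (h : fv v (p : K) < 1) :
    (p : ℝ) ≤ Nv v := by
  have h1 : ¬ Nat.Coprime (Ideal.absNorm v.asIdeal) p := by
    intro h2
    have := fv_eq_one_of_coprime v (fv_absNorm_lt_one v) h2
    linarith
  have h2 : p ∣ Ideal.absNorm v.asIdeal := by
    by_contra h3
    exact h1 ((hp.coprime_iff_not_dvd.mpr h3).symm)
  have h3 : 0 < Ideal.absNorm v.asIdeal := by
    have := NumberField.HeightOneSpectrum.one_lt_absNorm v
    omega
  unfold Nv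
  exact_mod_cast Nat.le_of_dvd h3 h2

/-- the primes above `p` -/
noncomputable def Vp (K : Type*) [Field K] [NumberField K] (p : ℕ) (hp : p ≠ 0) :
    Finset (HeightOneSpectrum (𝓞 K)) :=
  (fv_support_finite (K := K) (x := (p : K)) (by exact_mod_cast hp)).toFinset

lemma mem_Vp {p : ℕ} (hp : p ≠ 0) (v : HeightOneSpectrum (𝓞 K)) :
    v ∈ Vp K p hp ↔ fv v (p : K) < 1 := by
  unfold Vp
  rw [Set.Finite.mem_toFinset, Set.mem_ofPred_eq]
  constructor
  · intro h
    exact lt_of_le_of_ne (fv_nat_le_one v p) h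
  · intro h
    exact h.ne

lemma sum_Vp {p : ℕ} (hp : p ≠ 0) :
    ∑ v ∈ Vp K p hp, (-Real.log (fv v (p : K))) = Module.finrank ℚ K * Real.log p := by
  have hpK : (p : K) ≠ 0 := by exact_mod_cast hp
  have h1 := log_product_formula (K := K) hpK
  have h2 : ∑ᶠ v : HeightOneSpectrum (𝓞 K), Real.log (fv v (p : K)) =
      ∑ v ∈ Vp K p hp, Real.log (fv v (p : K)) := by
    refine finsum_eq_sum_of_support_subset _ ?_
    intro v hv
    rw [Finset.mem_coe, mem_Vp]
    refine lt_of_le_of_ne (fv_nat_le_one v p) ?_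
    intro h
    simp only [Function.mem_support] at hv
    rw [h, Real.log_one] at hv
    exact hv rfl
  have h3 : ∑ w : InfinitePlace K, (w.mult : ℝ) * Real.log (w (p : K)) =
      Module.finrank ℚ K * Real.log p := by
    have h4 : ∀ w : InfinitePlace K, w (p : K) = p := fun w => by
      rw [← InfinitePlace.norm_embedding_eq w (p : K), map_natCast, Complex.norm_natCast]
    simp only [h4]
    rw [← Finset.sum_mul]
    congr 1
    exact_mod_cast (InfinitePlace.sum_mult_eq (K := K))
  rw [h2, h3] at h1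
  rw [Finset.sum_neg_distrib]
  linarith

lemma card_Vp {p : ℕ} (hp : p.Prime) : (Vp K p hp.ne_zero).card ≤ Module.finrank ℚ K := by
  have h1 := sum_Vp (K := K) hp.ne_zero
  have hlog : 0 < Real.log p := Real.log_pos (by exact_mod_cast hp.one_lt)
  have h2 : ∀ v ∈ Vp K p hp.ne_zero, Real.log p ≤ -Real.log (fv v (p : K)) := by
    intro v hv
    rw [mem_Vp] at hv
    have hpK : (p : K) ≠ 0 := by exact_mod_cast hp.ne_zero
    obtain ⟨n, hn⟩ := log_fv v hpK
    have h3 := Real.log_le_log (by exact_mod_cast hp.pos) (prime_le_Nv v hp hv)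
    have h4 : Real.log (fv v (p : K)) < 0 := Real.log_neg ((fv v).pos hpK) hv
    have h5 := log_Nv_pos v
    rw [hn] at h4 ⊢
    have h6 : (n : ℝ) < 0 := by
      by_contra h
      push Not at h
      have := mul_nonneg h h5.le
      linarith
    have h7 : (n : ℝ) ≤ -1 := by
      have : n < 0 := by exact_mod_cast h6
      have : n ≤ -1 := by omega
      exact_mod_cast this
    nlinarith
  have h3 := Finset.sum_le_sum h2
  rw [h1, Finset.sum_const, nsmul_eq_mul] at h3
  have h4 := le_of_mul_le_mul_right h3 hlog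
  exact_mod_cast h4

end Pool.Agent.W221.Exc
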