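import Pool.Agent.W221.ExcLow1

set_option autoImplicit false
set_option linter.unusedSectionVars false

/-!
Upper bound for the truncated counting function of points close to two of the given points.
-/

namespace Pool.Agent.W221.Exc

open NumberField IsDedekindDomain Finset Height
open Pool.Agent.H691R3

section Local

variable {K : Type*} [Field K]

/-- the point `y r2 + r1` -/
def pt (r1 r2 : K × K) (y : K) : K × K := (y * r2.1 + r1.1, y * r2.2 + r1.2)

lemma wg_pt (r1 r2 s : K × K) (y : K) : wg (pt r1 r2 y) s = y * wg r2 s + wg r1 s := by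
  unfold wg pt; ring

lemma wg_self (r : K × K) : wg r r = 0 := by unfold wg; ring

lemma wg_swap (p r : K × K) : wg p r = - wg r p := by unfold wg; ring

variable (f : AbsoluteValue K ℝ)

lemma wg_le_nrm (hna : ∀ a b, f (a + b) ≤ max (f a) (f b)) {p r : K × K} (hp : p ≠ 0)
    (hr : r ≠ 0) (h : wg p r ≠ 0) : f (wg p r) ≤ nrm f p * nrm f r := by
  have h1 := lamA_nonneg f hna hp hr h
  rw [wg_exp f hp hr h]
  have h2 : Real.exp (-lamA f p r) ≤ 1 := by
    rw [Real.exp_le_one_iff]; linarith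
  have h3 := mul_pos (nrm_pos f hp) (nrm_pos f hr)
  nlinarith

lemma lamA_scale {p r : K × K} {c : K} (hc : c ≠ 0) :
    lamA f (c * p.1, c * p.2) r = lamA f p r := by
  unfold lamA
  simp only
  rw [max_mul_max]
  have h1 : c * p.1 * r.2 - c * p.2 * r.1 = c * (p.1 * r.2 - p.2 * r.1) := by ring
  rw [h1, f.map_mul]
  have h2 := f.pos hc
  congr 1
  rw [mul_assoc, mul_div_mul_left _ _ h2.ne']

lemma lamA_aff {p r : K × K} (h2 : p.2 ≠ 0) : lamA f (aff (p.1 / p.2)) r = lamA f p r := by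
  have h : aff (p.1 / p.2) = (p.2⁻¹ * p.1, p.2⁻¹ * p.2) := by
    unfold aff
    rw [inv_mul_cancel₀ h2, div_eq_inv_mul]
  rw [h, lamA_scale f (inv_ne_zero h2)]

/-- closeness to `r1` -/
lemma lamA_pt_left (hna : ∀ a b, f (a + b) ≤ max (f a) (f b)) {r1 r2 : K × K} (h1 : r1 ≠ 0)
    (h2 : r2 ≠ 0) (h12 : wg r1 r2 ≠ 0) {y : K} (hy : y ≠ 0) (hp : pt r1 r2 y ≠ 0) :
    Real.log (nrm f r1) - Real.log (nrm f r2) - Real.log (f y) ≤ lamA f (pt r1 r2 y) r1 := by
  have e1 : wg (pt r1 r2 y) r1 = y * wg r2 r1 := by rw [wg_pt, wg_self, add_zero]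
  have e2 : wg (pt r1 r2 y) r2 = wg r1 r2 := by rw [wg_pt, wg_self, mul_zero, zero_add]
  have h21 : wg r2 r1 ≠ 0 := wg_ne_comm h12
  have hw : f (wg r2 r1) = f (wg r1 r2) := by rw [wg_swap, f.map_neg]
  have n1 := nrm_pos f h1
  have n2 := nrm_pos f h2
  have nP := nrm_pos f hp
  have hb := wg_le_nrm f hna hp h2 (by rw [e2]; exact h12)
  rw [e2] at hb
  have h3 : wg (pt r1 r2 y) r1 ≠ 0 := by rw [e1]; exact mul_ne_zero hy h21
  have h4 : lamA f (pt r1 r2 y) r1 = Real.log (nrm f (pt r1 r2 y)) + Real.log (nrm f r1) -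
      Real.log (f (wg (pt r1 r2 y) r1)) := lamA_eq f hp h1 h3
  rw [h4, e1, f.map_mul, Real.log_mul (f.pos hy).ne' (f.pos h21).ne', hw]
  have h5 := Real.log_le_log (f.pos h12) hb
  rw [Real.log_mul nP.ne' n2.ne'] at h5
  linarith

/-- closeness to `r2` -/
lemma lamA_pt_right (hna : ∀ a b, f (a + b) ≤ max (f a) (f b)) {r1 r2 : K × K} (h1 : r1 ≠ 0)
    (h2 : r2 ≠ 0) (h12 : wg r1 r2 ≠ 0) {y : K} (hy : y ≠ 0) (hp : pt r1 r2 y ≠ 0) :
    Real.log (nrm f r2) - Real.log (nrm f r1) + Real.log (f y) ≤ lamA f (pt r1 r2 y) r2 := by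
  have e1 : wg (pt r1 r2 y) r1 = y * wg r2 r1 := by rw [wg_pt, wg_self, add_zero]
  have e2 : wg (pt r1 r2 y) r2 = wg r1 r2 := by rw [wg_pt, wg_self, mul_zero, zero_add]
  have h21 : wg r2 r1 ≠ 0 := wg_ne_comm h12
  have hw : f (wg r2 r1) = f (wg r1 r2) := by rw [wg_swap, f.map_neg]
  have n1 := nrm_pos f h1
  have n2 := nrm_pos f h2
  have nP := nrm_pos f hp
  have hb := wg_le_nrm f hna hp h1 (by rw [e1]; exact mul_ne_zero hy h21)
  rw [e1, f.map_mul, hw] at hb
  have h4 : lamA f (pt r1 r2 y) r2 = Real.log (nrm f (pt r1 r2 y)) + Real.log (nrm f r2) -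
      Real.log (f (wg (pt r1 r2 y) r2)) := lamA_eq f hp h2 (by
        have : wg (pt r1 r2 y) r2 ≠ 0 := by rw [e2]; exact h12
        exact this)
  rw [h4, e2]
  have h5 := Real.log_le_log (mul_pos (f.pos hy) (f.pos h12)) hb
  rw [Real.log_mul (f.pos hy).ne' (f.pos h12).ne', Real.log_mul nP.ne' n1.ne'] at h5
  linarith

end Local

variable {K : Type*} [Field K] [NumberField K]

/-- the truncated counting function of a point with two large local heights -/
theorem NTc_le {q : ℕ} (T : Set (HeightOneSpectrum (𝓞 K))) (α : Fin q → K × K)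
    (hα0 : ∀ l, α l ≠ 0) (l1 l2 : Fin q) (hl : l1 ≠ l2) (S1 S2 : Finset (HeightOneSpectrum (𝓞 K)))
    (x : K) (hx : Off α x) (g1 g2 : HeightOneSpectrum (𝓞 K) → ℝ)
    (h1 : ∀ v ∈ S1, g1 v + Real.log (Nv v) ≤ lamA (fv v) (aff x) (α l1))
    (h2 : ∀ v ∈ S2, g2 v + Real.log (Nv v) ≤ lamA (fv v) (aff x) (α l2)) :
    NTc T α x ≤ q * (hr (aff x) + lossK K) + ∑ l, hr (α l) - ∑ v ∈ S1, g1 v - ∑ v ∈ S2, g2 v := by
  classical
  have hax := aff_ne_zero x
  set Vf : Finset (HeightOneSpectrum (𝓞 K)) := S1 ∪ S2 ∪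
    (Finset.univ.biUnion fun l => (lamF_support_finite hax (hα0 l) (hx l)).toFinset) with hVf
  have hVf0 : ∀ v, v ∉ Vf → ∀ l, lamA (fv v) (aff x) (α l) = 0 := by
    intro v hv l
    by_contra hne
    apply hv
    rw [hVf, Finset.mem_union]
    right
    rw [Finset.mem_biUnion]
    exact ⟨l, Finset.mem_univ _, by rw [Set.Finite.mem_toFinset]; exact hne⟩
  set mn : HeightOneSpectrum (𝓞 K) → ℝ :=
    fun v => ∑ l : Fin q, min (lamA (fv v) (aff x) (α l)) (Real.log (Nv v)) with hmn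
  have hmn0 : ∀ v, 0 ≤ mn v := by
    intro v
    refine Finset.sum_nonneg fun l _ => le_min ?_ (log_Nv_pos _).le
    exact lamF_nonneg v hax (hα0 l) (hx l)
  have hNT : NTc T α x = ∑ v ∈ Vf.filter (fun v => v ∉ T), mn v := by
    unfold NTc
    simp only [← Set.mem_compl_iff]
    rw [finsum_mem_eq_sum_of_inter_support_eq (t := Vf.filter (fun v => v ∉ T))]
    · exact Finset.sum_congr rfl fun v _ => rfl
    ext v
    simp only [Set.mem_compl_iff, Set.mem_inter_iff, Function.mem_support, Finset.coe_filter,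
      Set.mem_ofPred_eq]
    constructor
    · rintro ⟨hv1, hv2⟩
      refine ⟨⟨?_, hv1⟩, hv2⟩
      by_contra hcon
      apply hv2
      refine Finset.sum_eq_zero fun l _ => ?_
      rw [hVf0 v hcon l]
      exact min_eq_left (log_Nv_pos v).le
    · rintro ⟨⟨_, hv1⟩, hv2⟩
      exact ⟨hv1, hv2⟩
  have hle : NTc T α x ≤ ∑ v ∈ Vf, mn v := by
    rw [hNT]
    exact Finset.sum_le_sum_of_subset_of_nonneg (Finset.filter_subset _ _) fun v _ _ => hmn0 v
  refine hle.trans ?_
  have hv : ∀ v ∈ Vf, mn v ≤ ∑ l : Fin q, lamA (fv v) (aff x) (α l) -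
      (if v ∈ S1 then g1 v else 0) - (if v ∈ S2 then g2 v else 0) := by
    intro v _
    have hs : ∀ l, min (lamA (fv v) (aff x) (α l)) (Real.log (Nv v)) ≤
        lamA (fv v) (aff x) (α l) - (if l = l1 then (if v ∈ S1 then g1 v else 0) else 0) -
          (if l = l2 then (if v ∈ S2 then g2 v else 0) else 0) := by
      intro l
      by_cases e1 : l = l1
      · subst e1
        rw [if_pos rfl, if_neg hl]
        by_cases e2 : v ∈ S1
        · rw [if_pos e2]
          have := h1 v e2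
          exact (min_le_right _ _).trans (by linarith)
        · rw [if_neg e2]
          exact (min_le_left _ _).trans (by linarith)
      · rw [if_neg e1]
        by_cases e3 : l = l2
        · subst e3
          rw [if_pos rfl]
          by_cases e2 : v ∈ S2
          · rw [if_pos e2]
            have := h2 v e2
            exact (min_le_right _ _).trans (by linarith)
          · rw [if_neg e2]
            exact (min_le_left _ _).trans (by linarith)
        · rw [if_neg e3]
          exact (min_le_left _ _).trans (by linarith)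
    refine (Finset.sum_le_sum fun l _ => hs l).trans (le_of_eq ?_)
    rw [Finset.sum_sub_distrib, Finset.sum_sub_distrib, Finset.sum_ite_eq' Finset.univ l1,
      Finset.sum_ite_eq' Finset.univ l2]
    simp
  refine (Finset.sum_le_sum hv).trans ?_
  rw [Finset.sum_sub_distrib, Finset.sum_sub_distrib, Finset.sum_comm]
  have hS1 : S1 ⊆ Vf := fun v hv => by
    rw [hVf]; simp [hv]
  have hS2 : S2 ⊆ Vf := fun v hv => by
    rw [hVf]; simp [hv]
  have e1 : ∑ v ∈ Vf, (if v ∈ S1 then g1 v else 0) = ∑ v ∈ S1, g1 v := by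
    rw [← Finset.sum_filter, Finset.filter_mem_eq_inter, Finset.inter_eq_right.mpr hS1]
  have e2 : ∑ v ∈ Vf, (if v ∈ S2 then g2 v else 0) = ∑ v ∈ S2, g2 v := by
    rw [← Finset.sum_filter, Finset.filter_mem_eq_inter, Finset.inter_eq_right.mpr hS2]
  rw [e1, e2]
  have h3 : ∀ l : Fin q, ∑ v ∈ Vf, lamA (fv v) (aff x) (α l) ≤
      hr (aff x) + hr (α l) + lossK K := by
    intro l
    have h4 := sum_lam_le hax (hα0 l) (hx l) (Vf.map ⟨Sum.inr, Sum.inr_injective⟩)
    rw [Finset.sum_map] at h4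
    exact h4
  have h4 := Finset.sum_le_sum fun l (_ : l ∈ (Finset.univ : Finset (Fin q))) => h3 l
  have h5 : ∑ l : Fin q, (hr (aff x) + hr (α l) + lossK K) =
      q * (hr (aff x) + lossK K) + ∑ l, hr (α l) := by
    rw [Finset.sum_add_distrib, Finset.sum_add_distrib, Finset.sum_const, Finset.sum_const,
      Finset.card_univ, Fintype.card_fin, nsmul_eq_mul, nsmul_eq_mul]
    ring
  linarith

end Pool.Agent.W221.Exc
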