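import Pool.Agent.W221.ExcLow2

set_option autoImplicit false
set_option linter.unusedSectionVars false

/-!
Choice of the shifts, and the height of a Moebius transform.
-/

namespace Pool.Agent.W221.Exc

open NumberField IsDedekindDomain Finset Height
open Pool.Agent.H691R3

variable {K : Type*} [Field K] [NumberField K]

/-- `z` is close to `t` -/
def Bd (v : HeightOneSpectrum (𝓞 K)) (z : K) (t : ℕ) : Prop := fv v (z - t) < max 1 (fv v z)

lemma bd_unique {p : ℕ} (hp : p.Prime) {v : HeightOneSpectrum (𝓞 K)} (hv : fv v (p : K) < 1)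
    {z : K} {t t' : ℕ} (htt : t < t') (hlt : t' - t < p) (h1 : Bd v z t) (h2 : Bd v z t') :
    False := by
  unfold Bd at h1 h2
  have hcop : Nat.Coprime p (t' - t) := by
    rw [Nat.Prime.coprime_iff_not_dvd hp]
    exact Nat.not_dvd_of_pos_of_lt (by omega) hlt
  have hu := fv_eq_one_of_coprime v hv hcop
  rw [Nat.cast_sub htt.le] at hu
  by_cases hz : fv v z ≤ 1
  · rw [max_eq_left hz] at h1 h2
    have h3 := fv_na v (z - t) (-(z - t'))
    have e : (z - t) + -(z - t') = (t' : K) - t := by ring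
    rw [e, hu, (fv v).map_neg] at h3
    rcases le_max_iff.mp h3 with h | h <;> linarith
  · push Not at hz
    rw [max_eq_right hz.le] at h1
    have h3 := fv_na v (z - t) (t : K)
    rw [sub_add_cancel] at h3
    have h4 := fv_nat_le_one v t
    rcases le_max_iff.mp h3 with h | h <;> linarith

lemma exists_not_bd {p : ℕ} (hp : p.Prime) (z : K) (I : Finset ℕ) (N : ℕ)
    (hI : ∀ t ∈ I, t < N) (hN : N ≤ p) (hc : Module.finrank ℚ K < I.card) :
    ∃ t ∈ I, ∀ v : HeightOneSpectrum (𝓞 K), fv v (p : K) < 1 → ¬ Bd v z t := by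
  classical
  by_contra hcon
  push Not at hcon
  obtain ⟨t0, ht0⟩ : I.Nonempty := Finset.card_pos.mp (by omega)
  obtain ⟨v0, -, -⟩ := hcon t0 ht0
  have : Nonempty (HeightOneSpectrum (𝓞 K)) := ⟨v0⟩
  choose! f hf1 hf2 using hcon
  have h1 : I.card ≤ (Vp K p hp.ne_zero).card := by
    refine Finset.card_le_card_of_injOn f (fun t ht => ?_) ?_
    · rw [Finset.mem_coe, mem_Vp]
      exact hf1 t ht
    · intro t ht t' ht' htt
      by_contra hne
      have ht1 := hI t ht
      have ht2 := hI t' ht'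
      rcases lt_or_gt_of_ne hne with h | h
      · refine bd_unique hp (hf1 t ht) h (by omega) (hf2 t ht) ?_
        rw [htt]; exact hf2 t' ht'
      · refine bd_unique hp (hf1 t ht) h (by omega) ?_ (hf2 t ht)
        rw [htt]; exact hf2 t' ht'
  have h2 := card_Vp (K := K) hp
  omega

lemma not_bd_le {v : HeightOneSpectrum (𝓞 K)} {z : K} {t : ℕ} (h : ¬ Bd v z t) (s : ℕ) :
    fv v (z - s) ≤ fv v (z - t) := by
  unfold Bd at h
  push Not at h
  refine le_trans ?_ h
  rw [sub_eq_add_neg]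
  refine (fv_na v _ _).trans (max_le (le_max_right _ _) ?_)
  rw [(fv v).map_neg]
  exact (fv_nat_le_one v s).trans (le_max_left _ _)

lemma exists_shift {p l : ℕ} (hp : p.Prime) (hl : l.Prime)
    (hpd : 2 * Module.finrank ℚ K + 2 ≤ p) (hld : 2 * Module.finrank ℚ K + 2 ≤ l) (z : K) :
    ∃ s t : ℕ, s ∈ Finset.range (2 * Module.finrank ℚ K + 2) ∧
      t ∈ Finset.range (2 * Module.finrank ℚ K + 2) ∧ s ≠ t ∧
      (∀ v : HeightOneSpectrum (𝓞 K), fv v (p : K) < 1 → fv v (z - s) ≤ fv v (z - t)) ∧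
      (∀ v : HeightOneSpectrum (𝓞 K), fv v (l : K) < 1 → fv v (z - t) ≤ fv v (z - s)) := by
  set d := Module.finrank ℚ K with hd
  obtain ⟨t, ht, ht2⟩ := exists_not_bd hp z (Finset.range (d + 1)) (2 * d + 2)
    (fun t ht => by rw [Finset.mem_range] at ht; omega) hpd (by rw [Finset.card_range]; omega)
  obtain ⟨s, hs, hs2⟩ := exists_not_bd hl z (Finset.Ico (d + 1) (2 * d + 2)) (2 * d + 2)
    (fun t ht => by rw [Finset.mem_Ico] at ht; omega) hld (by rw [Nat.card_Ico]; omega)
  rw [Finset.mem_range] at ht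
  rw [Finset.mem_Ico] at hs
  refine ⟨s, t, by rw [Finset.mem_range]; omega, by rw [Finset.mem_range]; omega, by omega, ?_, ?_⟩
  · intro v hv
    exact not_bd_le (ht2 v hv) s
  · intro v hv
    exact not_bd_le (hs2 v hv) t

/-- height of a fractional linear transform -/
lemma mob_height (a b c e : K) : ∃ C : ℝ, 0 < C ∧ ∀ y : K,
    mulHeight₁ ((y * a + b) / (y * c + e)) ≤ C * mulHeight₁ y := by
  set A : Fin 2 × Fin 2 → K := fun ji => if ji.1 = 0 then (if ji.2 = 0 then a else b)
    else (if ji.2 = 0 then c else e) with hA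
  refine ⟨(Nat.card (Fin 2) : ℝ) ^ totalWeight K * mulHeight A, ?_, ?_⟩
  · have h1 := mulHeight_pos A
    have h2 : (0 : ℝ) < (Nat.card (Fin 2) : ℝ) ^ totalWeight K := by
      simp
    exact mul_pos h2 h1
  · intro y
    have h := mulHeight_linearMap_apply_le A ![y, 1]
    rw [mulHeight₁_div_eq_mulHeight, mulHeight₁_eq_mulHeight]
    convert h using 2
    funext j
    fin_cases j
    · simp [hA, mul_comm]
    · simp [hA, mul_comm]

lemma mulHeight₁_ratio {p l : ℕ} (hl : l ≠ 0) (U : ℝ) (h1 : (p : ℝ) ≤ U) (h2 : (l : ℝ) ≤ U) :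
    mulHeight₁ ((p : K) / (l : K)) ≤ U ^ Module.finrank ℚ K := by
  have h := Pool.Agent.H437R2.Man.Low.height_le (K := K) (p : 𝓞 K) (l : 𝓞 K)
    (by exact_mod_cast hl) U
    (fun v => by
      have : ((p : 𝓞 K) : K) = (p : K) := by
        exact map_natCast (algebraMap (𝓞 K) K) p
      rw [this, ← InfinitePlace.norm_embedding_eq v (p : K), map_natCast, Complex.norm_natCast]
      exact h1)
    (fun v => by
      have : ((l : 𝓞 K) : K) = (l : K) := by
        exact map_natCast (algebraMap (𝓞 K) K) l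
      rw [this, ← InfinitePlace.norm_embedding_eq v (l : K), map_natCast, Complex.norm_natCast]
      exact h2)
  have e1 : ((p : 𝓞 K) : K) = (p : K) := map_natCast (algebraMap (𝓞 K) K) p
  have e2 : ((l : 𝓞 K) : K) = (l : K) := map_natCast (algebraMap (𝓞 K) K) l
  rwa [e1, e2] at h

end Pool.Agent.W221.Exc
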