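import Pool.Agent.W221.ExcLow3

set_option autoImplicit false
set_option linter.unusedSectionVars false

/-!
The lower bound for the number of points with few reductions.
-/

namespace Pool.Agent.W221.Exc

open NumberField IsDedekindDomain Finset Height
open Pool.Agent.H691R3

variable {K : Type*} [Field K] [NumberField K]

/-- the parameter `y` attached to `z` -/
noncomputable def yy (u : K) (s t : ℕ) (z : K) : K := u * ((z - s) / (z - t))

/-- the point attached to `z` -/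
noncomputable def xx (r1 r2 : K × K) (u : K) (s t : ℕ) (z : K) : K :=
  (pt r1 r2 (yy u s t z)).1 / (pt r1 r2 (yy u s t z)).2

lemma yy_inj {u : K} (hu : u ≠ 0) {s t : ℕ} (hst : s ≠ t) {z z' : K} (hz : z ≠ t) (hz' : z' ≠ t)
    (h : yy u s t z = yy u s t z') : z = z' := by
  unfold yy at h
  have h1 := mul_left_cancel₀ hu h
  rw [div_eq_div_iff (sub_ne_zero.mpr hz) (sub_ne_zero.mpr hz')] at h1
  have h2 : (z - z') * ((s : K) - t) = 0 := by linear_combination h1
  rcases mul_eq_zero.mp h2 with h3 | h3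
  · exact sub_eq_zero.mp h3
  · exfalso
    apply hst
    exact_mod_cast sub_eq_zero.mp h3

lemma pt_inj {r1 r2 : K × K} (h12 : wg r1 r2 ≠ 0) {y y' : K} (h : (pt r1 r2 y).2 ≠ 0)
    (h' : (pt r1 r2 y').2 ≠ 0)
    (he : (pt r1 r2 y).1 / (pt r1 r2 y).2 = (pt r1 r2 y').1 / (pt r1 r2 y').2) : y = y' := by
  rw [div_eq_div_iff h h'] at he
  unfold pt at he
  simp only at he
  have h2 : (y - y') * wg r1 r2 = 0 := by
    unfold wg
    linear_combination (-1 : K) * he
  rcases mul_eq_zero.mp h2 with h3 | h3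
  · exact sub_eq_zero.mp h3
  · exact absurd h3 h12

/-- the set of exceptional parameters -/
noncomputable def exc {q : ℕ} [DecidableEq K] (α : Fin q → K × K) (r1 r2 : K × K) : Finset K :=
  insert (-(r1.2 / r2.2)) (Finset.univ.image fun l => -(wg r1 (α l) / wg r2 (α l)))

lemma card_exc {q : ℕ} [DecidableEq K] (α : Fin q → K × K) (r1 r2 : K × K) :
    (exc α r1 r2).card ≤ q + 1 := by
  unfold exc
  refine (Finset.card_insert_le _ _).trans ?_
  have := Finset.card_image_le (s := (Finset.univ : Finset (Fin q)))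
    (f := fun l => -(wg r1 (α l) / wg r2 (α l)))
  rw [Finset.card_univ, Fintype.card_fin] at this
  omega

lemma pt_snd_ne {q : ℕ} [DecidableEq K] (α : Fin q → K × K) {r1 r2 : K × K} (h12 : wg r1 r2 ≠ 0)
    {y : K} (hy : y ∉ exc α r1 r2) : (pt r1 r2 y).2 ≠ 0 := by
  intro h
  unfold pt at h
  simp only at h
  apply hy
  unfold exc
  rw [Finset.mem_insert]
  left
  have h2 : r2.2 ≠ 0 := by
    intro h3
    rw [h3, mul_zero, zero_add] at h
    apply h12
    unfold wg
    rw [h, h3, mul_zero, zero_mul, sub_zero]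
  field_simp
  linear_combination h

lemma off_xx {q : ℕ} [DecidableEq K] (α : Fin q → K × K)
    (hα : ∀ i j, i ≠ j → wg (α i) (α j) ≠ 0) {l1 l2 : Fin q} (hl : l1 ≠ l2)
    {y : K} (hy : y ∉ exc α (α l1) (α l2)) :
    Off α ((pt (α l1) (α l2) y).1 / (pt (α l1) (α l2) y).2) := by
  intro l h
  have h2 := pt_snd_ne α (hα l1 l2 hl) hy
  have h3 : wg (pt (α l1) (α l2) y) (α l) = 0 := by
    have : wg (pt (α l1) (α l2) y) (α l) = (pt (α l1) (α l2) y).2 *
        wg (aff ((pt (α l1) (α l2) y).1 / (pt (α l1) (α l2) y).2)) (α l) := by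
      unfold wg aff
      field_simp
    rw [this, h, mul_zero]
  rw [wg_pt] at h3
  by_cases hll : l2 = l
  · subst hll
    rw [wg_self, mul_zero, zero_add] at h3
    exact hα l1 l2 hl h3
  · apply hy
    unfold exc
    rw [Finset.mem_insert]
    right
    rw [Finset.mem_image]
    refine ⟨l, Finset.mem_univ _, ?_⟩
    have h4 := hα l2 l hll
    field_simp
    linear_combination (-1 : K) * h3

lemma log_yy_left {p l m n : ℕ} (hp : p.Prime) (hl : l.Prime) (hpl : p ≠ l) {s t : ℕ} {z : K}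
    (hz : z ≠ t) (hz' : z ≠ s) {v : HeightOneSpectrum (𝓞 K)} (hv : fv v (p : K) < 1)
    (h : fv v (z - s) ≤ fv v (z - t)) :
    Real.log (fv v (yy (((p ^ m : ℕ) : K) / ((l ^ n : ℕ) : K)) s t z)) ≤
      m * Real.log (fv v (p : K)) := by
  have hl1 : fv v (l : K) = 1 :=
    fv_eq_one_of_coprime v hv ((Nat.coprime_primes hp hl).mpr hpl)
  have hpK : (p : K) ≠ 0 := by exact_mod_cast hp.ne_zero
  unfold yy
  have e1 : fv v (((p ^ m : ℕ) : K) / ((l ^ n : ℕ) : K)) = fv v (p : K) ^ m := by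
    rw [map_div₀]
    push_cast
    rw [(fv v).map_pow, (fv v).map_pow, hl1, one_pow, div_one]
  have hst : 0 < fv v (z - t) := (fv v).pos (sub_ne_zero.mpr hz)
  have hss : 0 < fv v (z - s) := (fv v).pos (sub_ne_zero.mpr hz')
  have e2 : fv v ((z - s) / (z - t)) ≤ 1 := by
    rw [map_div₀, div_le_one hst]
    exact h
  have e3 : 0 < fv v ((z - s) / (z - t)) := by
    rw [map_div₀]
    exact div_pos hss hst
  have hpp := (fv v).pos hpK
  rw [(fv v).map_mul, e1, Real.log_mul (pow_pos hpp m).ne' e3.ne', Real.log_pow]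
  have := Real.log_nonpos e3.le e2
  linarith

lemma log_yy_right {p l m n : ℕ} (hp : p.Prime) (hl : l.Prime) (hpl : p ≠ l) {s t : ℕ} {z : K}
    (hz : z ≠ t) (hz' : z ≠ s) {v : HeightOneSpectrum (𝓞 K)} (hv : fv v (l : K) < 1)
    (h : fv v (z - t) ≤ fv v (z - s)) :
    -(n * Real.log (fv v (l : K))) ≤
      Real.log (fv v (yy (((p ^ m : ℕ) : K) / ((l ^ n : ℕ) : K)) s t z)) := by
  have hl1 : fv v (p : K) = 1 :=
    fv_eq_one_of_coprime v hv ((Nat.coprime_primes hl hp).mpr hpl.symm)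
  have hpK : (l : K) ≠ 0 := by exact_mod_cast hl.ne_zero
  unfold yy
  have e1 : fv v (((p ^ m : ℕ) : K) / ((l ^ n : ℕ) : K)) = (fv v (l : K) ^ n)⁻¹ := by
    rw [map_div₀]
    push_cast
    rw [(fv v).map_pow, (fv v).map_pow, hl1, one_pow, one_div]
  have hst : 0 < fv v (z - t) := (fv v).pos (sub_ne_zero.mpr hz)
  have hss : 0 < fv v (z - s) := (fv v).pos (sub_ne_zero.mpr hz')
  have e2 : 1 ≤ fv v ((z - s) / (z - t)) := by
    rw [map_div₀, one_le_div hst]
    exact h
  have hpp := (fv v).pos hpK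
  rw [(fv v).map_mul, e1, Real.log_mul (inv_ne_zero (pow_pos hpp n).ne') (by positivity),
    Real.log_inv, Real.log_pow]
  have := Real.log_nonneg e2
  linarith

/-- the bound for the truncated counting function of the constructed points -/
theorem NTc_xx {q : ℕ} (T : Set (HeightOneSpectrum (𝓞 K))) (α : Fin q → K × K)
    (hα0 : ∀ l, α l ≠ 0) (hα : ∀ i j, i ≠ j → wg (α i) (α j) ≠ 0) (l1 l2 : Fin q) (hl12 : l1 ≠ l2)
    {p l : ℕ} (hp : p.Prime) (hl : l.Prime) (hpl : p ≠ l) :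
    ∃ C3 : ℝ, ∀ (m n s t : ℕ) (z : K), z ≠ t → z ≠ s →
      (∀ v : HeightOneSpectrum (𝓞 K), fv v (p : K) < 1 → fv v (z - s) ≤ fv v (z - t)) →
      (∀ v : HeightOneSpectrum (𝓞 K), fv v (l : K) < 1 → fv v (z - t) ≤ fv v (z - s)) →
      (pt (α l1) (α l2) (yy (((p ^ m : ℕ) : K) / ((l ^ n : ℕ) : K)) s t z)).2 ≠ 0 →
      Off α (xx (α l1) (α l2) (((p ^ m : ℕ) : K) / ((l ^ n : ℕ) : K)) s t z) →
      NTc T α (xx (α l1) (α l2) (((p ^ m : ℕ) : K) / ((l ^ n : ℕ) : K)) s t z) ≤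
        q * hr (aff (xx (α l1) (α l2) (((p ^ m : ℕ) : K) / ((l ^ n : ℕ) : K)) s t z)) + C3 -
          Module.finrank ℚ K * (m * Real.log p + n * Real.log l) := by
  classical
  set r1 := α l1 with hr1
  set r2 := α l2 with hr2
  have h12 : wg r1 r2 ≠ 0 := hα l1 l2 hl12
  set c1 : HeightOneSpectrum (𝓞 K) → ℝ := fun v => Real.log (nrm (fv v) r1) -
    Real.log (nrm (fv v) r2) - Real.log (Nv v) with hc1
  set c2 : HeightOneSpectrum (𝓞 K) → ℝ := fun v => Real.log (nrm (fv v) r2) -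
    Real.log (nrm (fv v) r1) - Real.log (Nv v) with hc2
  refine ⟨q * lossK K + ∑ l, hr (α l) - ∑ v ∈ Vp K p hp.ne_zero, c1 v -
    ∑ v ∈ Vp K l hl.ne_zero, c2 v, ?_⟩
  intro m n s t z hzt hzs hS1 hS2 hP hoff
  set u : K := ((p ^ m : ℕ) : K) / ((l ^ n : ℕ) : K) with hu
  have hu0 : u ≠ 0 := by
    rw [hu]
    refine div_ne_zero ?_ ?_
    · exact_mod_cast pow_ne_zero m hp.ne_zero
    · exact_mod_cast pow_ne_zero n hl.ne_zero
  have hy : yy u s t z ≠ 0 :=
    mul_ne_zero hu0 (div_ne_zero (sub_ne_zero.mpr hzs) (sub_ne_zero.mpr hzt))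
  have hpt0 : pt r1 r2 (yy u s t z) ≠ 0 := by
    intro h
    apply hP
    rw [h]; rfl
  have hmain := NTc_le T α hα0 l1 l2 hl12 (Vp K p hp.ne_zero) (Vp K l hl.ne_zero)
    (xx r1 r2 u s t z) hoff (fun v => c1 v + m * (-Real.log (fv v (p : K))))
    (fun v => c2 v + n * (-Real.log (fv v (l : K)))) ?_ ?_
  · rw [Finset.sum_add_distrib, Finset.sum_add_distrib, ← Finset.mul_sum, ← Finset.mul_sum,
      sum_Vp, sum_Vp] at hmain
    refine hmain.trans (le_of_eq ?_)
    ring
  · intro v hv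
    rw [mem_Vp] at hv
    unfold xx
    rw [lamA_aff (fv v) hP]
    have h1 := lamA_pt_left (fv v) (fv_na v) (hα0 l1) (hα0 l2) h12 hy hpt0
    have h2 := log_yy_left (m := m) (n := n) hp hl hpl hzt hzs hv (hS1 v hv)
    simp only [hc1]
    linarith
  · intro v hv
    rw [mem_Vp] at hv
    unfold xx
    rw [lamA_aff (fv v) hP]
    have h1 := lamA_pt_right (fv v) (fv_na v) (hα0 l1) (hα0 l2) h12 hy hpt0
    have h2 := log_yy_right (m := m) (n := n) hp hl hpl hzt hzs hv (hS2 v hv)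
    simp only [hc2]
    linarith

end Pool.Agent.W221.Exc
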