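import Pool.Agent.H691R3.ReflectN

set_option autoImplicit false
set_option linter.unusedVariables false

/-!
Certificates for exponents which depend linearly on the excess.
-/

namespace Pool.Agent.W221.Exc

open Finset Pool.Agent.H691R3

universe u

/-- the coefficients of the excess -/
def excF (J : ℕ) : ℕ → ℕ → ℤ := fun _ j => if j < J then (j : ℤ) else 1

def form1P (J en ed bn Cm mask : ℕ) : LForm :=
  ⟨fun l j => (bn : ℤ) * excF J l j + (form1 J en ed Cm mask).f l j,
    (form1 J en ed Cm mask).x, (form1 J en ed Cm mask).c, true⟩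

def form2P (J en ed bn Cm k i1 i2 mask : ℕ) : LForm :=
  ⟨fun l j => ((k * bn : ℕ) : ℤ) * excF J l j + (form2 J en ed Cm k i1 i2 mask).f l j,
    (form2 J en ed Cm k i1 i2 mask).x, (form2 J en ed Cm k i1 i2 mask).c, true⟩

/-- the checker -/
def checkP (q J en ed bn Cm : ℕ) : CTree → List LForm → Bool
  | .leaf ms, hs => (comb ms hs).s && decide ((comb ms hs).x ≤ 0) && decide ((comb ms hs).c ≤ 0) &&
      (List.range q).all fun l => (List.range (J + 2)).all fun j => decide ((comb ms hs).f l j ≤ 0)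
  | .node k i1 i2 mask t1 t2, hs => nodeValid q J k i1 i2 mask &&
      (checkP q J en ed bn Cm t1 (form1P J en ed bn Cm mask :: hs) &&
        checkP q J en ed bn Cm t2 (form2P J en ed bn Cm k i1 i2 mask :: hs))

/-- upper bound for the excess -/
def excUp (J kn kd : ℕ) : LForm :=
  ⟨fun l j => (-(kd : ℤ)) * excF J l j + 0, (kn : ℤ), 0, false⟩

section Sound

variable {ι : Type u} {q : ℕ}
variable {J : ℕ} {B : Finset ι} {w c : ι → ℝ} {lab : ι → Fin q} {m : ι → ℕ} {X C κ : ℝ}

lemma bval_zero (a : ι) : bval J w c lab m (fun _ _ => 0) a = 0 := by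
  unfold bval
  split_ifs <;> simp

lemma sum_bval_excF (hB : Blocks q B w c lab m X C κ) (hJ : 1 ≤ J) :
    ∑ a ∈ B, bval J w c lab m (excF J) a = ∑ a ∈ B, (w a - c a) := by
  refine Finset.sum_congr rfl fun a ha => ?_
  have hm1 := hB.m1 a ha
  unfold bval excF
  by_cases hca : c a = 0
  · rw [if_pos hca, if_neg (by omega), hca]
    push_cast; ring
  · have hw : w a = m a * c a := (hB.cw a ha).resolve_left hca
    rw [if_neg hca, hw]
    by_cases hmJ : m a < J
    · rw [if_pos hmJ, if_pos (by omega : m a - 1 < J)]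
      have h4 : ((m a - 1 : ℕ) : ℤ) = m a - 1 := by omega
      rw [h4]; push_cast; ring
    · rw [if_neg hmJ, if_pos (by omega : J - 1 < J), if_neg (lt_irrefl J)]
      have h4 : ((J - 1 : ℕ) : ℤ) = J - 1 := by omega
      rw [h4]; push_cast; ring

/-- failure of all methods, with the linear term -/
def AllBadP (B : Finset ι) (w c : ι → ℝ) (lab : ι → Fin q) (m : ι → ℕ) (X C e b Cm : ℝ) : Prop :=
  ∀ (k : ℕ) (i1 i2 : Fin q) (I : Finset ι), 1 ≤ k → k ≤ 4 → i1 ≠ i2 → I ⊆ B →
    (∀ a ∈ B, (lab a = i1 ∨ lab a = i2) → ¬ k ∣ m a → a ∈ I) →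
    e * X - b * ∑ a ∈ B, (w a - c a) + Cm * C <
      ∑ a ∈ I, c a + max 0 (2 * X / k - ∑ a ∈ I, gain lab w k i1 i2 a)

lemma node_holdsP (hB : Blocks q B w c lab m X C κ) (hJ : 1 ≤ J) (en ed bn Cm : ℕ) (hed : 1 ≤ ed)
    (hbad : AllBadP B w c lab m X C ((en : ℝ) / ed) ((bn : ℝ) / ed) Cm) (k i1 i2 mask : ℕ)
    (hv : nodeValid q J k i1 i2 mask = true) :
    Holds J B w c lab m X C (form1P J en ed bn Cm mask) ∨
      Holds J B w c lab m X C (form2P J en ed bn Cm k i1 i2 mask) := by
  classical
  unfold nodeValid at hv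
  simp only [Bool.and_eq_true, decide_eq_true_eq, List.all_eq_true, List.mem_range,
    Bool.or_eq_true] at hv
  obtain ⟨⟨⟨⟨⟨hk1, hk4⟩, hi1⟩, hi2⟩, hne⟩, hall⟩ := hv
  set cond : ι → Prop := fun a => c a = 0 ∨ mask.testBit (lab a * J + (min (m a) J - 1)) = true
    with hcond
  set I := B.filter cond with hI
  have hk0 : (0 : ℝ) < k := by exact_mod_cast hk1
  have hed0 : (0 : ℝ) < ed := by exact_mod_cast hed
  have hb := hbad k ⟨i1, hi1⟩ ⟨i2, hi2⟩ I hk1 hk4 (by simpa [Fin.ext_iff] using hne)
    (Finset.filter_subset _ _) (by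
      intro a ha hl hka
      rw [hI, Finset.mem_filter]
      refine ⟨ha, ?_⟩
      rw [hcond]
      by_cases hca : c a = 0
      · exact Or.inl hca
      · right
        have hm1 := hB.m1 a ha
        rcases hall (min (m a) J - 1) (by omega) with (h1 | h1) | h1
        · subst h1
          exact absurd (one_dvd _) hka
        · exfalso
          obtain ⟨h2, h3⟩ := h1
          have h4 : min (m a) J - 1 + 1 = m a := by omega
          rw [h4] at h3
          exact hka h3
        · rcases hl with h2 | h2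
          · rw [h2]; exact h1.1
          · rw [h2]; exact h1.2)
  have hgf : ∀ a, (k : ℝ) * gain lab w k ⟨i1, hi1⟩ ⟨i2, hi2⟩ a =
      (gfac k i1 i2 (lab a) : ℝ) * w a := by
    intro a
    unfold gain gfac
    have h1 : (lab a = ⟨i1, hi1⟩ ∨ lab a = ⟨i2, hi2⟩) ↔ (((lab a : Fin q) : ℕ) = i1 ∨
        ((lab a : Fin q) : ℕ) = i2) := by
      simp [Fin.ext_iff]
    by_cases h2 : (((lab a : Fin q) : ℕ) = i1 ∨ ((lab a : Fin q) : ℕ) = i2)
    · rw [if_pos h2, if_pos (h1.mpr h2)]
      push_cast
      field_simp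
    · rw [if_neg h2, if_neg (fun h => h2 (h1.mp h))]
      push_cast
      ring
  -- values of the two forms
  have hf1 : ∀ a ∈ B, bval J w c lab m (form1 J en ed Cm mask).f a =
      ed * (if cond a then c a else 0) := by
    intro a ha
    have hm1 := hB.m1 a ha
    unfold bval form1
    simp only
    by_cases hca : c a = 0
    · rw [if_pos hca, if_neg (by omega)]
      have : (if cond a then c a else 0) = 0 := by split_ifs <;> simp [hca]
      rw [this]; simp
    · rw [if_neg hca]
      by_cases hmJ : m a < J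
      · rw [if_pos hmJ, if_pos (by omega : m a - 1 < J)]
        have h1 : min (m a) J = m a := by omega
        have h2 : cond a ↔ mask.testBit (lab a * J + (m a - 1)) = true := by
          rw [hcond]; simp only [hca, false_or, h1]
        by_cases h3 : mask.testBit (lab a * J + (m a - 1)) = true
        · rw [if_pos h3, if_pos (h2.mpr h3)]; push_cast; ring
        · rw [if_neg h3, if_neg (fun h => h3 (h2.mp h))]; push_cast; ring
      · rw [if_neg hmJ, if_pos (by omega : J - 1 < J), if_neg (lt_irrefl J)]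
        have h1 : min (m a) J = J := by omega
        have h2 : cond a ↔ mask.testBit (lab a * J + (J - 1)) = true := by
          rw [hcond]; simp only [hca, false_or, h1]
        by_cases h3 : mask.testBit (lab a * J + (J - 1)) = true
        · rw [if_pos h3, if_pos (h2.mpr h3)]; push_cast; ring
        · rw [if_neg h3, if_neg (fun h => h3 (h2.mp h))]; push_cast; ring
  have hf2 : ∀ a ∈ B, bval J w c lab m (form2 J en ed Cm k i1 i2 mask).f a =
      ed * (k * (if cond a then c a else 0) -
        (if cond a then (gfac k i1 i2 (lab a) : ℝ) * w a else 0)) := by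
    intro a ha
    have hm1 := hB.m1 a ha
    unfold bval form2
    simp only
    by_cases hca : c a = 0
    · rw [if_pos hca, if_neg (by omega), if_neg (by omega)]
      have h2 : cond a := Or.inl hca
      rw [if_pos h2, if_pos h2, hca]
      push_cast
      ring
    · rw [if_neg hca]
      have hw : w a = m a * c a := (hB.cw a ha).resolve_left hca
      by_cases hmJ : m a < J
      · rw [if_pos hmJ, if_pos (by omega : m a - 1 < J)]
        have h1 : min (m a) J = m a := by omega
        have h2 : cond a ↔ mask.testBit (lab a * J + (m a - 1)) = true := by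
          rw [hcond]; simp only [hca, false_or, h1]
        have h4 : ((m a - 1 : ℕ) : ℤ) + 1 = m a := by omega
        by_cases h3 : mask.testBit (lab a * J + (m a - 1)) = true
        · rw [if_pos h3, if_pos (h2.mpr h3), if_pos (h2.mpr h3), h4, hw]; push_cast; ring
        · rw [if_neg h3, if_neg (fun h => h3 (h2.mp h)), if_neg (fun h => h3 (h2.mp h))]
          push_cast; ring
      · rw [if_neg hmJ, if_pos (by omega : J - 1 < J), if_neg (lt_irrefl J), if_pos trivial]
        have h1 : min (m a) J = J := by omega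
        have h2 : cond a ↔ mask.testBit (lab a * J + (J - 1)) = true := by
          rw [hcond]; simp only [hca, false_or, h1]
        have h4 : ((J - 1 : ℕ) : ℤ) + 1 = J := by omega
        by_cases h3 : mask.testBit (lab a * J + (J - 1)) = true
        · rw [if_pos h3, if_pos h3, if_pos (h2.mpr h3), if_pos (h2.mpr h3), h4]; push_cast; ring
        · rw [if_neg h3, if_neg h3, if_neg (fun h => h3 (h2.mp h)),
            if_neg (fun h => h3 (h2.mp h))]
          push_cast; ring
  have he1 : ev J B w c lab m X C (form1 J en ed Cm mask) =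
      ed * ∑ a ∈ I, c a - en * X - Cm * C := by
    unfold ev
    rw [Finset.sum_congr rfl hf1, ← Finset.mul_sum, hI, Finset.sum_filter]
    unfold form1
    push_cast
    ring
  have he2 : ev J B w c lab m X C (form2 J en ed Cm k i1 i2 mask) =
      ed * (k * (∑ a ∈ I, c a) -
        k * ∑ a ∈ I, gain lab w k ⟨i1, hi1⟩ ⟨i2, hi2⟩ a) + (2 * ed - k * en) * X - Cm * C := by
    unfold ev
    rw [Finset.sum_congr rfl hf2, ← Finset.mul_sum, Finset.sum_sub_distrib, ← Finset.mul_sum, hI,
      Finset.mul_sum (Finset.filter cond B) (gain lab w k ⟨i1, hi1⟩ ⟨i2, hi2⟩), Finset.sum_filter,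
      Finset.sum_filter]
    simp only [hgf]
    unfold form2
    push_cast
    ring
  -- the forms with the linear term
  set E : ℝ := ∑ a ∈ B, (w a - c a) with hE
  have hp1 : ev J B w c lab m X C (form1P J en ed bn Cm mask) =
      bn * E + ev J B w c lab m X C (form1 J en ed Cm mask) := by
    unfold ev form1P
    simp only [bval_comb]
    rw [Finset.sum_add_distrib, ← Finset.mul_sum, sum_bval_excF hB hJ, hE]
    push_cast
    ring
  have hp2 : ev J B w c lab m X C (form2P J en ed bn Cm k i1 i2 mask) =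
      k * bn * E + ev J B w c lab m X C (form2 J en ed Cm k i1 i2 mask) := by
    unfold ev form2P
    simp only [bval_comb]
    rw [Finset.sum_add_distrib, ← Finset.mul_sum, sum_bval_excF hB hJ, hE]
    push_cast
    ring
  have hCm : (0 : ℝ) ≤ Cm * C := mul_nonneg (Nat.cast_nonneg _) hB.hC
  have hCed : (Cm : ℝ) * C ≤ ed * (Cm * C) := by
    have h1 : (1 : ℝ) ≤ ed := by exact_mod_cast hed
    nlinarith
  rcases max_cases 0 (2 * X / (k : ℝ) - ∑ a ∈ I, gain lab w k ⟨i1, hi1⟩ ⟨i2, hi2⟩ a) with h | h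
  · left
    rw [h.1, add_zero] at hb
    have h5 := mul_lt_mul_of_pos_left hb hed0
    have h6 : (ed : ℝ) * ((en : ℝ) / ed * X - (bn : ℝ) / ed * E + Cm * C) =
        en * X - bn * E + ed * (Cm * C) := by
      field_simp
    have h7 : 0 < ev J B w c lab m X C (form1P J en ed bn Cm mask) := by
      rw [hp1, he1]; linarith
    exact ⟨h7.le, fun _ => h7⟩
  · right
    rw [h.1] at hb
    have h5 := mul_lt_mul_of_pos_left hb (mul_pos hk0 hed0)
    have h6 : (k : ℝ) * ed * ((en : ℝ) / ed * X - (bn : ℝ) / ed * E + Cm * C) =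
        k * en * X - k * bn * E + k * (ed * (Cm * C)) := by
      field_simp
    have h8 : (k : ℝ) * ed * (∑ a ∈ I, c a + (2 * X / (k : ℝ) -
        ∑ a ∈ I, gain lab w k ⟨i1, hi1⟩ ⟨i2, hi2⟩ a)) = ed * (k * (∑ a ∈ I, c a) -
        k * ∑ a ∈ I, gain lab w k ⟨i1, hi1⟩ ⟨i2, hi2⟩ a) + 2 * ed * X := by
      field_simp
      ring
    have h9 : (ed : ℝ) * (Cm * C) ≤ k * (ed * (Cm * C)) := by
      have h1 : (1 : ℝ) ≤ k := by exact_mod_cast hk1
      have h2 : 0 ≤ (ed : ℝ) * (Cm * C) := mul_nonneg hed0.le hCm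
      nlinarith
    have h7 : 0 < ev J B w c lab m X C (form2P J en ed bn Cm k i1 i2 mask) := by
      rw [hp2, he2]; linarith
    exact ⟨h7.le, fun _ => h7⟩

theorem check_soundP (hB : Blocks q B w c lab m X C κ) (hJ : 1 ≤ J) (en ed bn Cm : ℕ)
    (hed : 1 ≤ ed) (hbad : AllBadP B w c lab m X C ((en : ℝ) / ed) ((bn : ℝ) / ed) Cm) :
    ∀ (t : CTree) (hs : List LForm), (∀ h ∈ hs, Holds J B w c lab m X C h) →
      checkP q J en ed bn Cm t hs = true → False := by
  intro t
  induction t with
  | leaf ms =>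
    intro hs hh hc
    unfold checkP at hc
    simp only [Bool.and_eq_true, decide_eq_true_eq, List.all_eq_true, List.mem_range] at hc
    obtain ⟨⟨⟨h1, h2⟩, h3⟩, h4⟩ := hc
    have h5 := (comb_holds ms hs hh).2 h1
    have h6 := ev_nonpos hB hJ (comb ms hs) h2 h3 h4
    linarith
  | node k i1 i2 mask t1 t2 ih1 ih2 =>
    intro hs hh hc
    unfold checkP at hc
    simp only [Bool.and_eq_true] at hc
    obtain ⟨h1, h2, h3⟩ := hc
    rcases node_holdsP hB hJ en ed bn Cm hed hbad k i1 i2 mask h1 with h4 | h4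
    · refine ih1 _ ?_ h2
      intro h hh'
      rcases List.mem_cons.mp hh' with rfl | h5
      · exact h4
      · exact hh h h5
    · refine ih2 _ ?_ h3
      intro h hh'
      rcases List.mem_cons.mp hh' with rfl | h5
      · exact h4
      · exact hh h h5

lemma excUp_holds (hB : Blocks q B w c lab m X C κ) (hJ : 1 ≤ J) (kn kd : ℕ)
    (hup : (kd : ℝ) * ∑ a ∈ B, (w a - c a) ≤ kn * X) : Holds J B w c lab m X C (excUp J kn kd) := by
  have h : ev J B w c lab m X C (excUp J kn kd) = kn * X - kd * ∑ a ∈ B, (w a - c a) := by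
    unfold ev excUp
    simp only
    have h1 : ∀ a, bval J w c lab m (fun l j => (-(kd : ℤ)) * excF J l j + 0) a =
        ((-(kd : ℤ) : ℤ) : ℝ) * bval J w c lab m (excF J) a +
          bval J w c lab m (fun _ _ => 0) a := fun a =>
      bval_comb (J := J) (w := w) (c := c) (lab := lab) (m := m) (-(kd : ℤ)) (excF J)
        (fun _ _ => 0) a
    rw [Finset.sum_congr rfl (fun a _ => h1 a), Finset.sum_add_distrib, ← Finset.mul_sum,
      sum_bval_excF hB hJ, Finset.sum_congr rfl (fun a _ => bval_zero a), Finset.sum_const_zero]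
    push_cast
    ring
  refine ⟨?_, fun h => by simp [excUp] at h⟩
  rw [h]
  linarith

end Sound

/-! ### natural number version -/

def excN (J : ℕ) : ℕ → ℕ → ℕ := fun _ j => bif Nat.blt j J then j else 1

lemma excN_eq (J l j : ℕ) : ((excN J l j : ℕ) : ℤ) = excF J l j := by
  unfold excN excF
  by_cases h : j < J
  · have e : Nat.blt j J = true := by rw [Nat.blt_eq]; exact h
    rw [if_pos h, e]; rfl
  · have e : Nat.blt j J = false := by
      rw [← Bool.not_eq_true, Nat.blt_eq]; exact h
    rw [if_neg h, e]; rfl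

def form1NP (J en ed bn Cm mask : ℕ) : NForm :=
  ⟨fun l j => Nat.add (Nat.mul bn (excN J l j)) ((form1N J en ed Cm mask).P l j),
    (form1N J en ed Cm mask).N, (form1N J en ed Cm mask).xp, (form1N J en ed Cm mask).xn,
    (form1N J en ed Cm mask).cp, (form1N J en ed Cm mask).cn, true⟩

def form2NP (J en ed bn Cm k i1 i2 mask : ℕ) : NForm :=
  ⟨fun l j => Nat.add (Nat.mul (Nat.mul k bn) (excN J l j))
      ((form2N J en ed Cm k i1 i2 mask).P l j),
    (form2N J en ed Cm k i1 i2 mask).N, (form2N J en ed Cm k i1 i2 mask).xp,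
    (form2N J en ed Cm k i1 i2 mask).xn,
    (form2N J en ed Cm k i1 i2 mask).cp, (form2N J en ed Cm k i1 i2 mask).cn, true⟩

def excUpN (J kn kd : ℕ) : NForm :=
  ⟨fun _ _ => 0, fun l j => Nat.mul kd (excN J l j), kn, 0, 0, 0, false⟩

lemma form1NP_toL (J en ed bn Cm mask : ℕ) :
    (form1NP J en ed bn Cm mask).toL = form1P J en ed bn Cm mask := by
  have h := form1N_toL J en ed Cm mask
  unfold form1P
  rw [← h]
  unfold NForm.toL form1NP
  congr 1
  funext l j
  simp only
  show ((bn * excN J l j + (form1N J en ed Cm mask).P l j : ℕ) : ℤ) - _ = _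
  push_cast
  rw [excN_eq]
  ring

lemma form2NP_toL (J en ed bn Cm k i1 i2 mask : ℕ) :
    (form2NP J en ed bn Cm k i1 i2 mask).toL = form2P J en ed bn Cm k i1 i2 mask := by
  have h := form2N_toL J en ed Cm k i1 i2 mask
  unfold form2P
  rw [← h]
  unfold NForm.toL form2NP
  congr 1
  funext l j
  simp only
  show ((k * bn * excN J l j + (form2N J en ed Cm k i1 i2 mask).P l j : ℕ) : ℤ) - _ = _
  push_cast
  rw [excN_eq]
  ring

lemma excUpN_toL (J kn kd : ℕ) : (excUpN J kn kd).toL = excUp J kn kd := by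
  unfold NForm.toL excUpN excUp
  congr 1
  · funext l j
    simp only
    show ((0 : ℕ) : ℤ) - ((kd * excN J l j : ℕ) : ℤ) = _
    push_cast
    rw [excN_eq]
    ring

/-- the checker -/
def checkNP (q J en ed bn Cm : ℕ) : CTree → List NForm → Bool
  | .leaf ms, hs => leafN q J (selNZ ms hs)
  | .node k i1 i2 mask t1 t2, hs => and (nodeValid q J k i1 i2 mask)
      (and (checkNP q J en ed bn Cm t1 (form1NP J en ed bn Cm mask :: hs))
        (checkNP q J en ed bn Cm t2 (form2NP J en ed bn Cm k i1 i2 mask :: hs)))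

theorem checkP_of_checkNP (q J en ed bn Cm : ℕ) : ∀ (t : CTree) (hs : List NForm),
    checkNP q J en ed bn Cm t hs = true → checkP q J en ed bn Cm t (hs.map NForm.toL) = true := by
  intro t
  induction t with
  | leaf ms =>
    intro hs h
    unfold checkNP leafN at h
    simp only [Bool.and_eq_true, allLt_iff] at h
    obtain ⟨h1, h2, h3, h4⟩ := h
    obtain ⟨e1, e2, e3, e4⟩ := comb_selNZ ms hs
    unfold checkP
    simp only [Bool.and_eq_true, decide_eq_true_eq, List.all_eq_true, List.mem_range]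
    refine ⟨⟨⟨?_, ?_⟩, ?_⟩, ?_⟩
    · rw [e4]; exact h1
    · rw [e2]
      have := Nat.le_of_ble_eq_true h2
      omega
    · rw [e3]
      have := Nat.le_of_ble_eq_true h3
      omega
    · intro l hl j hj
      rw [e1]
      have := Nat.le_of_ble_eq_true (h4 l hl j hj)
      omega
  | node k i1 i2 mask t1 t2 ih1 ih2 =>
    intro hs h
    unfold checkNP at h
    simp only [Bool.and_eq_true] at h
    obtain ⟨h1, h2, h3⟩ := h
    unfold checkP
    simp only [Bool.and_eq_true]
    refine ⟨h1, ?_, ?_⟩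
    · have := ih1 _ h2
      rw [List.map_cons, form1NP_toL] at this
      exact this
    · have := ih2 _ h3
      rw [List.map_cons, form2NP_toL] at this
      exact this

/-- the constraints of the problem -/
def baseNP (q J kn kd k2n k2d : ℕ) : List NForm := baseHN q J kn kd ++ [excUpN J k2n k2d]

/-- the exponent as a linear function of the excess, on an interval -/
theorem sel_line {q : ℕ} {κ : ℝ} (J en ed bn Cm kn kd k2n k2d : ℕ) (hJ : 1 ≤ J) (hed : 1 ≤ ed)
    (hk2d : 1 ≤ k2d) (hκ : (kn : ℝ) ≤ kd * κ) (hκ2 : κ ≤ (k2n : ℝ) / k2d) (t : CTree)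
    (ht : checkNP q J en ed bn Cm t (baseNP q J kn kd k2n k2d) = true)
    (h2 : Sel.{u} q ((k2n : ℝ) / k2d) ((en : ℝ) / ed - (bn : ℝ) / ed * ((k2n : ℝ) / k2d))) :
    Sel.{u} q κ ((en : ℝ) / ed - (bn : ℝ) / ed * κ) := by
  classical
  obtain ⟨Cm2, hCm2, h2⟩ := h2
  have hb0 : 0 ≤ (bn : ℝ) / ed := by positivity
  refine sel_of_sorted ⟨Cm + Cm2 + (bn : ℝ) / ed, by positivity, ?_⟩
  intro ι B w c lab m X C hB hord
  have hX := hB.hX
  have hC := hB.hC
  have hCC : 0 ≤ (Cm : ℝ) * C := mul_nonneg (Nat.cast_nonneg _) hC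
  have hCC2 : 0 ≤ Cm2 * C := mul_nonneg hCm2 hC
  have hbC : 0 ≤ (bn : ℝ) / ed * C := mul_nonneg hb0 hC
  by_cases hbig : (k2n : ℝ) / k2d * X - C ≤ ∑ a ∈ B, (w a - c a)
  · obtain ⟨k, i1, i2, I, e1, e2, e3, e4, e5, e6⟩ := h2 ι B w c lab m X C
      { hX := hB.hX, hC := hB.hC, c0 := hB.c0, w0 := hB.w0, m1 := hB.m1, cw := hB.cw,
        form := hB.form, exc := hbig }
    refine ⟨k, i1, i2, I, e1, e2, e3, e4, e5, e6.trans ?_⟩
    have h3 : ((en : ℝ) / ed - (bn : ℝ) / ed * ((k2n : ℝ) / k2d)) * X ≤
        ((en : ℝ) / ed - (bn : ℝ) / ed * κ) * X := by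
      refine mul_le_mul_of_nonneg_right ?_ hX
      have := mul_le_mul_of_nonneg_left hκ2 hb0
      linarith
    linarith
  · push Not at hbig
    by_contra hcon
    push Not at hcon
    have h := checkP_of_checkNP q J en ed bn Cm t _ ht
    refine check_soundP hB hJ en ed bn Cm hed (κ := κ) ?_ t _ ?_ h
    · intro k i1 i2 I e1 e2 e3 e4 e5
      refine lt_of_le_of_lt ?_ (hcon k i1 i2 I e1 e2 e3 e4 e5)
      have h3 := mul_le_mul_of_nonneg_left hB.exc hb0
      have h4 : (bn : ℝ) / ed * (κ * X - C) = (bn : ℝ) / ed * κ * X - (bn : ℝ) / ed * C := by ring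
      rw [h4] at h3
      linarith
    · intro g hg
      unfold baseNP at hg
      rw [List.map_append, baseHN_toL, List.mem_append] at hg
      rcases hg with hg | hg
      · exact base_holds hB hJ kn kd hκ hord g hg
      · rw [List.map_singleton, List.mem_singleton, excUpN_toL] at hg
        rw [hg]
        refine excUp_holds hB hJ k2n k2d ?_
        have hk : (0 : ℝ) < k2d := by exact_mod_cast hk2d
        have h5 : ∑ a ∈ B, (w a - c a) ≤ (k2n : ℝ) / k2d * X := by linarith
        have h6 := mul_le_mul_of_nonneg_left h5 hk.le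
        have h7 : (k2d : ℝ) * ((k2n : ℝ) / k2d * X) = k2n * X := by field_simp
        linarith

end Pool.Agent.W221.Exc
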